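import Pool.Agent.Lib.MP_064b94_an.Space

open Filter Topology Classical

set_option maxSynthPendingDepth 3

namespace Pool.Agent.Lib.MP_064b94_an

variable {𝕜 : Type} [RCLike 𝕜]

section General
variable {E F : Type} [NormedAddCommGroup E] [NormedSpace 𝕜 E]
  [NormedAddCommGroup F] [NormedSpace 𝕜 F] {ι κ : Type}

lemma tendsto_sum_cofinite {α : Type} {l : Filter α} {f : ι ⊕ κ → α}
    (h1 : Tendsto (fun i => f (.inl i)) cofinite l) (h2 : Tendsto (fun i => f (.inr i)) cofinite l) :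
    Tendsto f cofinite l := by
  intro s hs
  rw [mem_map, mem_cofinite, ← Set.finite_preimage_inl_and_inr]
  exact ⟨mem_cofinite.1 (h1 hs), mem_cofinite.1 (h2 hs)⟩

lemma mem_closure_of_hasSum (S : Submodule 𝕜 E) {f : ι → E} {a : E} (h : HasSum f a)
    (hf : ∀ i, f i ∈ S) : a ∈ S.topologicalClosure :=
  mem_closure_of_tendsto h (Eventually.of_forall fun _ => S.sum_mem fun i _ => hf i)

lemma wcg_of_family' (J : E →ₗᵢ[𝕜] F) (w : ι → F) (c : ι → ℝ) (hc : ∀ i, 0 < c i)
    (hw : ∀ i, ∃ z, J z = w i)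
    (null : ∀ g : StrongDual 𝕜 F, Tendsto (fun i => c i * ‖g (w i)‖) cofinite (𝓝 0))
    (dense : ∀ z, J z ∈ (Submodule.span 𝕜 (Set.range w)).topologicalClosure) : WCG 𝕜 E := by
  refine wcg_of_family J (fun i => (c i : 𝕜) • w i) (fun i => ?_) (fun g => ?_) fun z => ?_
  · obtain ⟨z, hz⟩ := hw i
    exact ⟨(c i : 𝕜) • z, by rw [map_smul, hz]⟩
  · rw [tendsto_zero_iff_norm_tendsto_zero]
    refine (null g).congr fun i => ?_
    rw [map_smul, norm_smul, RCLike.norm_ofReal, abs_of_pos (hc i)]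
  · refine Submodule.topologicalClosure_mono (Submodule.span_le.2 ?_) (dense z)
    rintro _ ⟨i, rfl⟩
    have h0 : (c i : 𝕜) ≠ 0 := by exact_mod_cast (hc i).ne'
    have : w i = (c i : 𝕜)⁻¹ • ((c i : 𝕜) • w i) := by rw [smul_smul, inv_mul_cancel₀ h0, one_smul]
    rw [this]
    exact Submodule.smul_mem _ _ (Submodule.subset_span ⟨i, rfl⟩)

end General

lemma exists_T (𝕜 : Type) [RCLike 𝕜] :
    ∃ T : JT 𝕜 N →L[𝕜] StrongDual 𝕜 (StrongDual 𝕜 (JT 𝕜 N)),
      ∀ y, HasSum (fun p : G × ℕ => Lam p y • bt (ray p)) (T y) := by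
  have hw : UpL2 𝕜 (fun p : G × ℕ => (bt (ray p) : StrongDual 𝕜 (StrongDual 𝕜 (JT 𝕜 N)))) :=
    upL2_bt.comp ray ray_injective
  obtain ⟨T1, h1⟩ := exists_op hw (fun p => (co (N.tre (.inl p.2) p.1) : StrongDual 𝕜 (JT 𝕜 N)))
    (sum_co_comp_le _ fun a b h => by
      simp only [N.tre.injEq, Sum.inl.injEq] at h
      exact Prod.ext h.2 h.1)
  obtain ⟨T2, h2⟩ := exists_op hw (fun p => (bs (ray p) : StrongDual 𝕜 (JT 𝕜 N)))
    (sum_bs_le _ fun a b h => ray_disjoint h)
  obtain ⟨T3, h3⟩ := exists_op hw (fun p => (al p.2 : 𝕜) •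
      (co (N.fib p.1 (tau p.2).1 (tau p.2).2) : StrongDual 𝕜 (JT 𝕜 N))) (fun y I => by
    calc _ ≤ ∑ p ∈ (I.image Prod.fst) ×ˢ (I.image Prod.snd),
          ‖((al p.2 : 𝕜) • (co (N.fib p.1 (tau p.2).1 (tau p.2).2) : StrongDual 𝕜 (JT 𝕜 N))) y‖ ^ 2 :=
          Finset.sum_le_sum_of_subset_of_nonneg Finset.subset_product fun _ _ _ => by positivity
      _ ≤ ∑ j ∈ I.image Prod.snd, al j * ‖y‖ ^ 2 := by
          rw [Finset.sum_product_right]
          refine Finset.sum_le_sum fun j _ => ?_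
          simp only [smul_apply, norm_smul, mul_pow, RCLike.norm_ofReal, sq_abs]
          rw [← Finset.mul_sum]
          have a1 := sum_co_comp_le (fun γ => N.fib γ (tau j).1 (tau j).2)
            (fun a b h => by simpa using h) y (I.image Prod.fst)
          have a2 : al j ^ 2 ≤ al j := by
            rw [sq]; exact mul_le_of_le_one_right (al_pos j).le (al_le_one j)
          exact mul_le_mul a2 a1 (Finset.sum_nonneg fun _ _ => by positivity) (al_pos j).le
      _ ≤ ‖y‖ ^ 2 := by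
          rw [← Finset.sum_mul]
          exact mul_le_of_le_one_left (by positivity) (sum_al_le _))
  refine ⟨T1 - T2 + T3, fun y => ?_⟩
  have := ((h1 y).sub (h2 y)).add (h3 y)
  refine this.congr_fun fun p => ?_
  rw [Lam_apply, add_smul, sub_smul]
  rfl

noncomputable def TT (𝕜 : Type) [RCLike 𝕜] :
    JT 𝕜 N →L[𝕜] StrongDual 𝕜 (StrongDual 𝕜 (JT 𝕜 N)) := (exists_T 𝕜).choose

lemma TT_hasSum (y : JT 𝕜 N) : HasSum (fun p : G × ℕ => Lam p y • bt (ray p)) (TT 𝕜 y) :=
  (exists_T 𝕜).choose_spec y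

lemma TT_eq_zero {y : JT 𝕜 N} (h : ∀ p, Lam p y = 0) : TT 𝕜 y = 0 := by
  have := TT_hasSum y
  simp only [h, zero_smul] at this
  exact this.unique hasSum_zero

lemma TT_inl (j : ℕ) (γ : G) : TT 𝕜 (e 𝕜 (N.tre (.inl j) γ)) = bt (ray (γ, j)) := by
  have h1 := TT_hasSum (e 𝕜 (N.tre (.inl j) γ))
  have h2 := hasSum_single (f := fun p : G × ℕ => Lam p (e 𝕜 (N.tre (.inl j) γ)) •
    (bt (ray p) : StrongDual 𝕜 (StrongDual 𝕜 (JT 𝕜 N)))) (γ, j) fun p hp => by
      have : ¬ (p.2 = j ∧ p.1 = γ) := fun h => hp (Prod.ext h.2 h.1)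
      simp [Lam_apply, co_e, bs_e_notMem _ tre_notMem_ray, this]
  rw [h1.unique h2]
  simp [Lam_apply, co_e, bs_e_notMem _ tre_notMem_ray]

lemma TT_inr (k : ℕ × ℕ) (γ : G) : TT 𝕜 (e 𝕜 (N.tre (.inr k) γ)) = 0 :=
  TT_eq_zero fun p => by simp [Lam_apply, co_e, bs_e_notMem _ tre_notMem_ray]

noncomputable def Th (𝕜 : Type) [RCLike 𝕜] :
    JT 𝕜 N →L[𝕜] StrongDual 𝕜 (StrongDual 𝕜 (JT 𝕜 N)) := jj 𝕜 N + TT 𝕜

lemma Th_apply (y : JT 𝕜 N) (f : StrongDual 𝕜 (JT 𝕜 N)) : Th 𝕜 y f = f y + TT 𝕜 y f := rfl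

def N.base : N → G
  | .fib γ _ _ => γ
  | .tre _ γ => γ

def N.idx : N → ℕ
  | .fib _ _ n => n
  | .tre _ _ => 0

section Perp
variable {f : StrongDual 𝕜 (JT 𝕜 N)} (hf : ∀ y, InX y → f y = 0)
include hf

lemma perp_A (γ : G) (j : ℕ) : Th 𝕜 (e 𝕜 (N.tre (.inl j) γ)) f = 0 := by
  rw [Th_apply, TT_inl]
  have hidx : Tendsto N.idx (ray (γ, j)).U cofinite := Br.tendsto_of_injOn _ (by
    rintro _ ⟨a, rfl⟩ _ ⟨b, rfl⟩ h
    simp only [N.idx] at h
    rw [h])
  have t1 : Tendsto (fun n => f (e 𝕜 (N.tre (.inr (j, n)) γ))) cofinite (𝓝 0) :=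
    (upL2_e (𝕜 := 𝕜) (fun n => N.tre (.inr (j, n)) γ) fun a b h => by simp [h]).tendsto f
  have t2 : Tendsto (fun n => f (rr 𝕜 γ j n)) cofinite (𝓝 0) := by
    rw [Nat.cofinite_eq_atTop]
    have a1 : Tendsto (fun n => rr 𝕜 γ j n) atTop (𝓝 0) := by
      rw [tendsto_zero_iff_norm_tendsto_zero]
      refine squeeze_zero (fun _ => norm_nonneg _) (norm_rr_le γ j) ?_
      simpa [Function.comp_def] using (Real.continuous_sqrt.tendsto 0).comp al_tendsto
    simpa [Function.comp_def] using (f.continuous.tendsto 0).comp a1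
  have t3 := ((t2.sub t1).sub_const (f (e 𝕜 (N.tre (.inl j) γ)))).comp hidx
  have t4 := tendsto_nhds_unique (bt_tendsto (ray (γ, j)) f) (t3.congr' (by
    filter_upwards [(ray (γ, j)).ev_mem] with t ht
    obtain ⟨n, rfl⟩ := ht
    have := hf _ (inX_EE γ j n)
    simp only [EE, pr, map_add, map_sub] at this
    simp only [Function.comp, N.idx]
    linear_combination -this))
  rw [t4]
  ring

lemma perp_pr (γ : G) (i n : ℕ) : Th 𝕜 (pr 𝕜 γ i n) f = 0 := by
  have h1 : pr 𝕜 γ i n = EE 𝕜 γ i n - e 𝕜 (N.tre (.inl i) γ) + rr 𝕜 γ i n := by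
    rw [EE]; abel
  have h2 : Th 𝕜 (EE 𝕜 γ i n) f = 0 := by
    rw [Th_apply, TT_eq_zero (inX_EE γ i n).2, hf _ (inX_EE γ i n)]
    simp
  have h3 : Th 𝕜 (rr 𝕜 γ i n) f = 0 := by
    have := ((jj' f).comp (Th 𝕜)).hasSum (rr_hasSum γ i n)
    simp only [ContinuousLinearMap.comp_apply, map_smul, jj'_apply, perp_A hf, smul_zero] at this
    exact this.unique hasSum_zero
  rw [h1, map_add, map_sub, add_apply, sub_apply, h2, h3, perp_A hf]
  simp

lemma perp_bt (b : Br N) (hb : b ∉ Set.range ray) : bt b f = 0 := by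
  obtain ⟨m, hm⟩ := (branch_cases b).resolve_left hb
  have hbase : Tendsto N.base b.U cofinite := Br.tendsto_of_injOn _ (by
    intro v hv w hw h
    obtain ⟨γ, rfl⟩ := hm v hv
    obtain ⟨γ', rfl⟩ := hm w hw
    simp only [N.base] at h
    rw [h])
  rcases m with j | ⟨i, n⟩
  · have t1 := ((upL2_bt.comp (fun γ => ray (γ, j)) fun a b h => by
      simpa using ray_injective h).tendsto (jj' f)).neg.comp hbase
    rw [neg_zero] at t1
    refine tendsto_nhds_unique (bt_tendsto b f) (t1.congr' ?_)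
    filter_upwards [b.ev_mem] with t ht
    obtain ⟨γ, rfl⟩ := hm t ht
    have := perp_A hf γ j
    rw [Th_apply, TT_inl] at this
    simp only [Function.comp, N.base, jj'_apply]
    linear_combination -this
  · have t1 := ((upL2_e (𝕜 := 𝕜) (fun γ => N.fib γ i n) fun a b h => by simp [h]).tendsto
      ((jj' f).comp (Th 𝕜))).neg.comp hbase
    rw [neg_zero] at t1
    refine tendsto_nhds_unique (bt_tendsto b f) (t1.congr' ?_)
    filter_upwards [b.ev_mem] with t ht
    obtain ⟨γ, rfl⟩ := hm t ht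
    have := perp_pr hf γ i n
    rw [pr, map_add, add_apply, Th_apply (e 𝕜 (N.tre _ _)), TT_inr] at this
    simp only [Function.comp, N.base, jj'_apply, ContinuousLinearMap.comp_apply]
    simp only [zero_apply, add_zero] at this
    linear_combination -this

end Perp

lemma oc_tre (S : Set M) : IsLowerSet {v : N | ∃ m ∈ S, ∃ γ, v = N.tre m γ} := by
  rintro _ (⟨γ, i, n⟩ | ⟨m, γ⟩) h ⟨m', hm', γ', rfl⟩
  · exact False.elim h
  · exact ⟨m, h.1 ▸ hm', γ, rfl⟩

lemma exists_Q (𝕜 : Type) [RCLike 𝕜] (k : ℕ × ℕ) : ∃ Q : JT 𝕜 N →L[𝕜] JT 𝕜 N,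
    (∀ y γ i n, co (N.fib γ i n) (Q y) =
      if (i, n) = k then co (N.tre (.inr k) γ) y else 0) ∧
    (∀ y γ m, co (N.tre m γ) (Q y) = if m = .inr k then co (N.tre m γ) y else 0) := by
  obtain ⟨D, hD⟩ := exists_op
    (upL2_e (𝕜 := 𝕜) (fun γ => N.fib γ k.1 k.2) fun a b h => by simp [h])
    (fun γ => (co (N.tre (.inr k) γ) : StrongDual 𝕜 (JT 𝕜 N)))
    (sum_co_comp_le _ fun a b h => by simpa using h)
  have hoc := (oc_tre {Sum.inr k}).ordConnected
  refine ⟨D + proj {v : N | ∃ m ∈ ({Sum.inr k} : Set M), ∃ γ, v = N.tre m γ}, ?_, ?_⟩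
  · intro y γ i n
    rw [add_apply, map_add, co_proj_notMem hoc _ (by simp), add_zero]
    split_ifs with h
    · subst h
      exact co_of_hasSum (φ := fun γ => N.fib γ i n) (fun a b h => by simpa using h) (hD y) γ
    · refine co_of_hasSum' (hD y) fun γ' h' => h ?_
      simp only [N.fib.injEq] at h'
      exact Prod.ext h'.2.1 h'.2.2
  · intro y γ m
    rw [add_apply, map_add, co_of_hasSum' (hD y) (by simp), zero_add]
    split_ifs with h
    · exact co_proj_mem hoc _ (by simp [h])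
    · exact co_proj_notMem hoc _ (by simp [h])

lemma Th_mem (S : Submodule 𝕜 (StrongDual 𝕜 (StrongDual 𝕜 (JT 𝕜 N))))
    (h1 : ∀ γ j, Th 𝕜 (e 𝕜 (N.tre (.inl j) γ)) ∈ S) (h2 : ∀ γ i n, Th 𝕜 (pr 𝕜 γ i n) ∈ S)
    {y : JT 𝕜 N} (hy : InY y) : Th 𝕜 y ∈ S.topologicalClosure := by
  choose Q hQ1 hQ2 using exists_Q 𝕜
  let T0 : Set N := {v : N | ∃ m ∈ Set.range (Sum.inl : ℕ → M), ∃ γ, v = N.tre m γ}
  have hT0 : T0.OrdConnected := (oc_tre _).ordConnected
  have a0 : Th 𝕜 (proj T0 y) ∈ S.topologicalClosure := by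
    refine map_mem_of_e ((Th 𝕜).comp (proj T0)) S (fun v => ?_) y
    rw [ContinuousLinearMap.comp_apply]
    by_cases hv : v ∈ T0
    · have : proj T0 (e 𝕜 v) = e 𝕜 v := JT.ext fun w => by
        rw [co_proj hT0, co_e]
        split_ifs with a b
        · rfl
        · rfl
        · rename_i b; exact absurd (b ▸ hv) a
        · rfl
      rw [this]
      obtain ⟨_, ⟨j, rfl⟩, γ, rfl⟩ := hv
      exact h1 γ j
    · have : proj T0 (e 𝕜 v) = 0 := JT.ext fun w => by
        rw [co_proj hT0, co_e]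
        split_ifs with a b
        · exact absurd (b ▸ a) hv
        · simp
        · simp
      rw [this, map_zero]
      exact S.zero_mem
  have a1 : ∀ k, Th 𝕜 (Q k y) ∈ S.topologicalClosure := by
    intro k
    refine map_mem_of_e ((Th 𝕜).comp (Q k)) S (fun v => ?_) y
    rw [ContinuousLinearMap.comp_apply]
    by_cases hv : ∃ γ, v = N.tre (.inr k) γ
    · obtain ⟨γ, rfl⟩ := hv
      have : Q k (e 𝕜 (N.tre (.inr k) γ)) = pr 𝕜 γ k.1 k.2 := JT.ext fun w => by
        rcases w with ⟨γ', i, n⟩ | ⟨m, γ'⟩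
        · rw [hQ1]
          simp only [pr, map_add, co_e]
          by_cases a : (i, n) = k
          · subst a; simp
          · have : ¬ (i = k.1 ∧ n = k.2) := fun h => a (Prod.ext h.1 h.2)
            simp [a, this]
        · rw [hQ2]
          simp only [pr, map_add, co_e]
          by_cases a : m = .inr k
          · subst a; simp
          · simp [a]
      rw [this]
      exact h2 ..
    · have : Q k (e 𝕜 v) = 0 := JT.ext fun w => by
        push Not at hv
        rcases w with ⟨γ', i, n⟩ | ⟨m, γ'⟩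
        · rw [hQ1, co_e, if_neg (hv γ').symm]; simp
        · rw [hQ2, co_e]
          split_ifs with a b
          · exact absurd (a ▸ b).symm (hv γ')
          · simp
          · simp
      rw [this, map_zero]
      exact S.zero_mem
  have key : y ∈ closure {x | Th 𝕜 x ∈ S.topologicalClosure} := by
    rw [Metric.mem_closure_iff]
    intro ε hε
    obtain ⟨F, hF⟩ := exists_tail_small y (half_pos hε)
    let sz : N → ℕ := fun v => match v with
      | .fib _ i n => max i n
      | .tre (.inl _) _ => 0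
      | .tre (.inr k) _ => max k.1 k.2
    let K := F.sup sz + 1
    let A : Set N := {v | sz v < K}
    have hA : IsLowerSet A := by
      rintro (⟨γ, i, n⟩ | ⟨m, γ⟩) (⟨γ', i', n'⟩ | ⟨m', γ'⟩) h ha
      · obtain ⟨rfl, rfl, h⟩ := h
        exact lt_of_le_of_lt (max_le_max le_rfl h) ha
      · exact False.elim h
      · exact False.elim h
      · obtain ⟨rfl, h⟩ := h
        rcases m' with j | k
        · exact ha
        · exact ha
    have hFA : (F : Set N) ⊆ A := fun v hv => Nat.lt_succ_of_le (Finset.le_sup (f := sz) hv)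
    have hdec : proj A y = proj T0 y + ∑ k ∈ Finset.range K ×ˢ Finset.range K, Q k y := by
      refine JT.ext fun v => ?_
      rw [map_add, map_sum]
      rcases v with ⟨γ, i, n⟩ | ⟨j | k, γ⟩
      · rw [co_proj_notMem hT0 _ (by simp [T0]), zero_add, co_proj hA.ordConnected]
        simp only [hQ1]
        rw [Finset.sum_ite_eq]
        simp [A, sz, hy γ i n]
      · rw [co_proj_mem hT0 _ (by simp [T0]), co_proj_mem hA.ordConnected _ (by simp [A, sz, K])]
        simp [hQ2]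
      · rw [co_proj_notMem hT0 _ (by simp [T0]), zero_add, co_proj hA.ordConnected]
        simp only [hQ2, Sum.inr.injEq]
        rw [Finset.sum_ite_eq]
        simp [A, sz]
    refine ⟨proj A y, ?_, ?_⟩
    · rw [Set.mem_ofPred_eq, hdec, map_add, map_sum]
      exact Submodule.add_mem _ a0 (Submodule.sum_mem _ fun k _ => a1 k)
    · have := hF A hA hFA
      rw [dist_eq_norm, ← eq_sub_of_add_eq' (proj_add_compl hA y)]
      linarith
  exact (S.isClosed_topologicalClosure.preimage (Th 𝕜).continuous).closure_subset key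

theorem wcg_bidual {E : Type} [NormedAddCommGroup E] [NormedSpace 𝕜 E] (J : E →ₗᵢ[𝕜] JT 𝕜 N)
    (hJ : ∀ y, (∃ x, J x = y) ↔ InX y) : WCG 𝕜 (StrongDual 𝕜 (StrongDual 𝕜 E)) := by
  let w : (G × ℕ) ⊕ (G × ℕ × ℕ) ⊕ ↥(Set.range ray)ᶜ → StrongDual 𝕜 (StrongDual 𝕜 (JT 𝕜 N)) :=
    Sum.elim (fun p => Th 𝕜 (e 𝕜 (N.tre (.inl p.2) p.1)))
      (Sum.elim (fun p => Th 𝕜 (pr 𝕜 p.1 p.2.1 p.2.2)) fun b => bt b.1)
  let c : (G × ℕ) ⊕ (G × ℕ × ℕ) ⊕ ↥(Set.range ray)ᶜ → ℝ :=
    Sum.elim (fun p => 1 / ((ht (N.tre (.inl p.2) p.1) : ℝ) + 1))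
      (Sum.elim (fun p => 1 / (((ht (N.fib p.1 p.2.1 p.2.2) : ℝ) + 1) *
        ((ht (N.tre (.inr p.2) p.1) : ℝ) + 1))) fun _ => 1)
  refine wcg_of_family' (bidualEmb J) w c ?_ ?_ ?_ ?_
  · rintro (p | p | b)
    · simp only [c, Sum.elim_inl]; positivity
    · simp only [c, Sum.elim_inl, Sum.elim_inr]; positivity
    · simp [c]
  · intro i
    refine exists_bidualEmb J _ fun f hf => ?_
    have hf' : ∀ y, InX y → f y = 0 := fun y hy => by
      obtain ⟨x, rfl⟩ := (hJ y).2 hy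
      exact hf x
    rcases i with p | p | b
    · exact perp_A hf' _ _
    · exact perp_pr hf' _ _ _
    · exact perp_bt hf' _ b.2
  · intro g
    have t0 := tendsto_weighted (g.comp (Th 𝕜))
    refine tendsto_sum_cofinite ?_ (tendsto_sum_cofinite ?_ ?_)
    · have hi : Function.Injective fun p : G × ℕ => N.tre (.inl p.2) p.1 := fun a b h => by
        simp only [N.tre.injEq, Sum.inl.injEq] at h
        exact Prod.ext h.2 h.1
      refine (t0.comp hi.tendsto_cofinite).congr fun p => ?_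
      simp only [c, w, Function.comp, Sum.elim_inl, ContinuousLinearMap.comp_apply]
      ring
    · have hi1 : Function.Injective fun p : G × ℕ × ℕ => N.fib p.1 p.2.1 p.2.2 := fun a b h => by
        simp only [N.fib.injEq] at h
        exact Prod.ext h.1 (Prod.ext h.2.1 h.2.2)
      have hi2 : Function.Injective fun p : G × ℕ × ℕ => N.tre (.inr p.2) p.1 := fun a b h => by
        simp only [N.tre.injEq, Sum.inr.injEq] at h
        exact Prod.ext h.2 h.1
      have t1 := (t0.comp hi1.tendsto_cofinite).add (t0.comp hi2.tendsto_cofinite)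
      rw [add_zero] at t1
      refine squeeze_zero (fun p => ?_) (fun p => ?_) t1
      · simp only [c, Sum.elim_inl, Sum.elim_inr]; positivity
      · simp only [c, w, Function.comp, Sum.elim_inl, Sum.elim_inr, ContinuousLinearMap.comp_apply,
          pr, map_add]
        set a : ℝ := (ht (N.fib p.1 p.2.1 p.2.2) : ℝ) + 1 with ha
        set b : ℝ := (ht (N.tre (.inr p.2) p.1) : ℝ) + 1 with hb
        have ha1 : 1 ≤ a := by rw [ha]; linarith [Nat.cast_nonneg (α := ℝ) (ht (N.fib p.1 p.2.1 p.2.2))]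
        have hb1 : 1 ≤ b := by rw [hb]; linarith [Nat.cast_nonneg (α := ℝ) (ht (N.tre (.inr p.2) p.1))]
        refine (mul_le_mul_of_nonneg_left (norm_add_le _ _) (by positivity)).trans ?_
        rw [mul_add, one_div_mul_eq_div, one_div_mul_eq_div]
        gcongr
        · exact le_mul_of_one_le_right (by positivity) hb1
        · exact le_mul_of_one_le_left (by positivity) ha1
    · have t1 := ((upL2_bt.comp (fun b : ↥(Set.range ray)ᶜ => b.1)
        Subtype.val_injective).tendsto g).norm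
      simpa [c, w] using t1
  · intro z
    set ζ := bidualEmb J z with hζ
    have hv : ∀ f : StrongDual 𝕜 (JT 𝕜 N), (∀ y, InX y → f y = 0) → ζ f = 0 := fun f hf => by
      have : tr J.toContinuousLinearMap f = 0 := by
        ext x; exact hf _ ((hJ _).1 ⟨x, rfl⟩)
      rw [hζ, bidualEmb_apply, this, map_zero]
    obtain ⟨y, hy, hs, -⟩ := decomp ζ
    have hyY : InY y := fun γ i n => by
      have := hv (co (N.tre (.inr (i, n)) γ) - co (N.fib γ i n)) fun x hx => by
        rw [sub_apply, hx.1, sub_self]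
      rw [map_sub, sub_eq_zero] at this
      rw [hy, hy, this]
    have hlam : ∀ p, ζ (bs (ray p)) - bs (ray p) y = Lam p y := fun p => by
      have := hv (Lam p) fun x hx => hx.2 p
      rw [Lam, map_add, map_sub, map_smul, smul_eq_mul] at this
      rw [Lam_apply, hy, hy]
      linear_combination -this
    have h1 : HasSum ((fun b : Br N => (ζ (bs b) - bs b y) • bt b) ∘ ray) (TT 𝕜 y) := by
      refine (TT_hasSum y).congr_fun fun p => ?_
      simp only [Function.comp, hlam]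
    have h2 := (ray_injective.hasSum_range_iff.2 h1).hasSum_iff_compl.1 hs
    have h3 := mem_closure_of_hasSum (Submodule.span 𝕜 (Set.range w)) h2 fun b =>
      Submodule.smul_mem _ _ (Submodule.subset_span ⟨.inr (.inr b), rfl⟩)
    have h4 := Th_mem (Submodule.span 𝕜 (Set.range w))
      (fun γ j => Submodule.subset_span ⟨.inl (γ, j), rfl⟩)
      (fun γ i n => Submodule.subset_span ⟨.inr (.inl (γ, i, n)), rfl⟩) hyY
    have h5 : ζ = ζ - jj 𝕜 N y - TT 𝕜 y + Th 𝕜 y := by
      ext f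
      simp [Th_apply]
    rw [h5]
    exact Submodule.add_mem _ h3 h4

end Pool.Agent.Lib.MP_064b94_an
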