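import Pool.Agent.Lib.MP_064b94_an.JT

open Filter Topology Classical

namespace Pool.Agent.Lib.MP_064b94_an

variable {𝕜 : Type} [RCLike 𝕜] {V : Type} [Forest V] {ι : Type}

/-- infinite branches -/
structure Br (V : Type) [Forest V] where
  s : Set V
  inf : s.Infinite
  lower : IsLowerSet s
  chain : ∀ a ∈ s, ∀ b ∈ s, a ≤ b ∨ b ≤ a

lemma Br.ext' {b c : Br V} (h : b.s = c.s) : b = c := by
  cases b; cases c; simp only at h; subst h; rfl

instance (b : Br V) : NeBot (cofinite ⊓ 𝓟 b.s) := b.inf.cofinite_inf_principal_neBot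

noncomputable def Br.U (b : Br V) : Ultrafilter V := Ultrafilter.of (cofinite ⊓ 𝓟 b.s)

lemma Br.U_le (b : Br V) : (b.U : Filter V) ≤ cofinite :=
  (Ultrafilter.of_le _).trans inf_le_left

lemma Br.ev_mem (b : Br V) : ∀ᶠ t in b.U, t ∈ b.s :=
  ((Ultrafilter.of_le _).trans inf_le_right) (mem_principal_self _)

lemma Br.ev_notMem (b : Br V) {F : Set V} (hF : F.Finite) : ∀ᶠ t in b.U, t ∉ F :=
  b.U_le hF.compl_mem_cofinite

lemma Br.ev_ge (b : Br V) {v : V} (hv : v ∈ b.s) : ∀ᶠ t in b.U, v ≤ t := by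
  filter_upwards [b.ev_mem, b.ev_notMem (Forest.fin_Iic v)] with t h1 h2
  exact (b.chain v hv t h1).resolve_right h2

lemma Br.ev_cone (b : Br V) (F : Finset V) : ∀ᶠ t in b.U, ∀ v ∈ F, ¬ t ≤ v :=
  (eventually_all_finset F).2 fun v _ => b.ev_notMem (Forest.fin_Iic v)

lemma Br.inter_finite {b c : Br V} (h : b ≠ c) : (b.s ∩ c.s).Finite := by
  have key : ∀ b c : Br V, (b.s ∩ c.s).Infinite → b.s ⊆ c.s := by
    intro b c h v hv
    obtain ⟨w, hw, hw'⟩ := h.exists_notMem_finite (Forest.fin_Iic v)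
    exact c.lower ((b.chain v hv w hw.1).resolve_right hw') hw.2
  by_contra hi
  exact h (Br.ext' (Set.Subset.antisymm (key b c hi) (key c b (by rwa [Set.inter_comm]))))

lemma Br.ev_notMem_other {b c : Br V} (h : b ≠ c) : ∀ᶠ t in b.U, t ∉ c.s := by
  filter_upwards [b.ev_mem, b.ev_notMem (Br.inter_finite h)] with t h1 h2 h3
  exact h2 ⟨h1, h3⟩

lemma exists_bs (𝕜 : Type) [RCLike 𝕜] (b : Br V) : ∃ G : StrongDual 𝕜 (JT 𝕜 V), ‖G‖ ≤ 1 ∧
    ∀ y, Tendsto (fun t => sg (ic t) y) b.U (𝓝 (G y)) :=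
  exists_ulim b.U (fun t => sg (ic t)) 1 zero_le_one fun t =>
    ContinuousLinearMap.opNorm_le_bound _ zero_le_one fun y => by
      rw [one_mul]; exact seg_le (isSeg_ic t) y

/-- branch functional -/
noncomputable def bs (b : Br V) : StrongDual 𝕜 (JT 𝕜 V) := (exists_bs 𝕜 b).choose

lemma bs_tendsto (b : Br V) (y : JT 𝕜 V) :
    Tendsto (fun t => sg (ic t) y) b.U (𝓝 (bs b y)) := (exists_bs 𝕜 b).choose_spec.2 y

lemma bs_le (b : Br V) (y : JT 𝕜 V) : ‖bs b y‖ ≤ ‖y‖ :=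
  le_of_tendsto' (bs_tendsto b y).norm fun t => seg_le (isSeg_ic t) y

lemma bs_eq (b : Br V) (y : JT 𝕜 V) (F : Finset V) (h : ∀ v ∈ b.s, v ∉ F → co v y = 0) :
    bs b y = sg (fl b.s F) y := by
  refine tendsto_nhds_unique (bs_tendsto b y) (tendsto_const_nhds.congr' ?_)
  have h1 : ∀ᶠ t in b.U, ∀ v ∈ fl b.s F, v ≤ t :=
    (eventually_all_finset _).2 fun v hv => b.ev_ge (mem_fl.1 hv).2
  filter_upwards [h1, b.ev_mem] with t h1 h2
  rw [sg_apply, sg_apply]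
  refine Finset.sum_subset (fun v hv => mem_ic.2 (h1 v hv)) fun v hv hv' => ?_
  have hb : v ∈ b.s := b.lower (mem_ic.1 hv) h2
  exact h v hb fun hF => hv' (mem_fl.2 ⟨hF, hb⟩)

lemma bs_single (b : Br V) (y : JT 𝕜 V) {w : V} (hw : w ∈ b.s)
    (h : ∀ v ∈ b.s, v ≠ w → co v y = 0) : bs b y = co w y := by
  rw [bs_eq b y {w} fun v hv hv' => h v hv (by simpa using hv')]
  have : fl b.s {w} = {w} := by ext v; simp; rintro rfl; exact hw
  simp [this, sg]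

lemma bs_zero (b : Br V) (y : JT 𝕜 V) (h : ∀ v ∈ b.s, co v y = 0) : bs b y = 0 := by
  rw [bs_eq b y ∅ fun v hv _ => h v hv]
  simp [fl, sg]

lemma bs_e_mem (b : Br V) {v : V} (hv : v ∈ b.s) : bs b (e 𝕜 v) = 1 := by
  rw [bs_single b _ hv fun w _ hw => by simp [co_e, hw]]
  simp [co_e]

lemma bs_e_notMem (b : Br V) {v : V} (hv : v ∉ b.s) : bs b (e 𝕜 v) = 0 :=
  bs_zero b _ fun w hw => by
    have : w ≠ v := fun h => hv (h ▸ hw)
    simp [co_e, this]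

lemma exists_bt (𝕜 : Type) [RCLike 𝕜] (b : Br V) :
    ∃ G : StrongDual 𝕜 (StrongDual 𝕜 (JT 𝕜 V)), ‖G‖ ≤ 1 ∧
    ∀ f : StrongDual 𝕜 (JT 𝕜 V), Tendsto (fun t => f (e 𝕜 t)) b.U (𝓝 (G f)) :=
  exists_ulim b.U (fun t => NormedSpace.inclusionInDoubleDual 𝕜 (JT 𝕜 V) (e 𝕜 t)) 1 zero_le_one
    fun t => (NormedSpace.double_dual_bound 𝕜 _ _).trans (norm_e_le t)

/-- the point at infinity of a branch, in the bidual -/
noncomputable def bt (b : Br V) : StrongDual 𝕜 (StrongDual 𝕜 (JT 𝕜 V)) := (exists_bt 𝕜 b).choose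

lemma bt_tendsto (b : Br V) (f : StrongDual 𝕜 (JT 𝕜 V)) :
    Tendsto (fun t => f (e 𝕜 t)) b.U (𝓝 (bt b f)) := (exists_bt 𝕜 b).choose_spec.2 f

lemma bt_co (b : Br V) (v : V) : bt b (co v : StrongDual 𝕜 (JT 𝕜 V)) = 0 := by
  refine tendsto_nhds_unique (bt_tendsto b _) (tendsto_const_nhds.congr' ?_)
  filter_upwards [b.ev_notMem (Set.finite_singleton v)] with t ht
  have : v ≠ t := fun h => ht h.symm
  simp [co_e, this]

lemma bt_bs_self (b : Br V) : bt b (bs b : StrongDual 𝕜 (JT 𝕜 V)) = 1 := by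
  refine tendsto_nhds_unique (bt_tendsto b _) (tendsto_const_nhds.congr' ?_)
  filter_upwards [b.ev_mem] with t ht
  exact (bs_e_mem b ht).symm

lemma bt_bs_ne {b c : Br V} (h : b ≠ c) : bt b (bs c : StrongDual 𝕜 (JT 𝕜 V)) = 0 := by
  refine tendsto_nhds_unique (bt_tendsto b _) (tendsto_const_nhds.congr' ?_)
  filter_upwards [Br.ev_notMem_other h] with t ht
  exact (bs_e_notMem c ht).symm

lemma sum_bt_le (f : StrongDual 𝕜 (JT 𝕜 V)) (I : Finset (Br V)) :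
    ∑ b ∈ I, ‖bt b f‖ ^ 2 ≤ ‖f‖ ^ 2 := by
  have h1 : ∀ (n : ℕ) (b : Br V), ∃ t, (t ∈ b.s ∧ ∀ c ∈ I, b ≠ c → t ∉ c.s) ∧
      dist (f (e 𝕜 t)) (bt b f) < 1 / ((n : ℝ) + 1) := by
    intro n b
    have a1 : ∀ᶠ t in b.U, ∀ c ∈ I, b ≠ c → t ∉ c.s :=
      (eventually_all_finset _).2 fun c _ => by
        by_cases h : b = c
        · exact Eventually.of_forall fun t h' => absurd h h'
        · filter_upwards [Br.ev_notMem_other h] with t ht _ using ht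
    have a2 := Metric.tendsto_nhds.1 (bt_tendsto b f) (1 / ((n : ℝ) + 1)) (by positivity)
    exact ((b.ev_mem.and a1).and a2).exists
  choose t ht hd using h1
  have h2 : ∀ b, Tendsto (fun n => f (e 𝕜 (t n b))) atTop (𝓝 (bt b f)) := fun b =>
    tendsto_iff_dist_tendsto_zero.2 (squeeze_zero (fun _ => dist_nonneg) (fun n => (hd n b).le)
      tendsto_one_div_add_atTop_nhds_zero_nat)
  have h3 : Tendsto (fun n => ∑ b ∈ I, ‖f (e 𝕜 (t n b))‖ ^ 2) atTop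
      (𝓝 (∑ b ∈ I, ‖bt b f‖ ^ 2)) := tendsto_finsetSum _ fun b _ => (h2 b).norm.pow 2
  refine le_of_tendsto' h3 fun n => ?_
  have h4 := (upL2_e (𝕜 := 𝕜) (fun b : I => t n b) fun b c hbc h =>
    (ht n b).2 c c.2 (fun h => hbc (Subtype.ext h)) (c.1.lower h (ht n c).1)).dual f Finset.univ
  rwa [Finset.sum_coe_sort I (fun b => ‖f (e 𝕜 (t n b))‖ ^ 2)] at h4

lemma upL2_bt : UpL2 𝕜 (fun b : Br V => (bt b : StrongDual 𝕜 (StrongDual 𝕜 (JT 𝕜 V)))) :=
  UpL2.of_dual _ sum_bt_le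

lemma sum_tail_le (b : ι → Br V) (U : ι → Set V) (hU : ∀ i, IsUpperSet (U i))
    (hd : ∀ i j, i ≠ j → Disjoint ((b i).s ∩ U i) ((b j).s ∩ U j)) (y : JT 𝕜 V) (I : Finset ι) :
    ∑ i ∈ I, ‖tr (proj (U i)) (bs (b i)) y‖ ^ 2 ≤ ‖y‖ ^ 2 := by
  refine sum_sq_le_of_dense (fun i => tr (proj (U i)) (bs (b i))) dense_fs I ?_ y
  rintro y ⟨F, hF⟩
  obtain ⟨G, hFG, hG⟩ := exists_lower F
  have h1 : ∀ i, tr (proj (U i)) (bs (b i)) y = sg (fl (U i) (fl (b i).s G)) y := by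
    intro i
    rw [tr_apply, bs_eq (b i) _ G, sg_proj (hU i).ordConnected]
    intro v _ hv
    simp [co_proj (hU i).ordConnected, hF v fun h => hv (hFG h)]
  simp only [h1]
  refine sum_sg_le I _ (fun i _ => IsSeg.filter ⟨?_, ?_⟩ (hU i).ordConnected) ?_ y
  · intro a ha c hc
    exact (b i).chain a (mem_fl.1 ha).2 c (mem_fl.1 hc).2
  · intro a _ c hc d _ h
    exact mem_fl.2 ⟨hG h (mem_fl.1 hc).1, (b i).lower h (mem_fl.1 hc).2⟩
  · intro i _ j _ hij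
    rw [Finset.disjoint_left]
    intro v hv hv'
    simp only [mem_fl] at hv hv'
    exact Set.disjoint_left.1 (hd i j hij) ⟨hv.1.2, hv.2⟩ ⟨hv'.1.2, hv'.2⟩

lemma tail_eq (b : Br V) {U : Set V} (hU : IsUpperSet U) (h : (b.s \ U).Finite) :
    (bs b : StrongDual 𝕜 (JT 𝕜 V)) = tr (proj U) (bs b) + sg h.toFinset := by
  ext y
  have h1 := proj_add_compl hU.compl y
  rw [compl_compl] at h1
  have h2 : bs b (proj Uᶜ y) = sg h.toFinset y := by
    rw [bs_eq b _ h.toFinset, sg_proj hU.compl.ordConnected]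
    · congr 2
      ext v
      simp only [mem_fl, Set.Finite.mem_toFinset, Set.mem_sdiff, Set.mem_compl_iff]
      tauto
    · intro v hv hv'
      refine co_proj_notMem hU.compl.ordConnected _ fun h' => hv' ?_
      exact h.mem_toFinset.2 ⟨hv, h'⟩
  rw [add_apply, tr_apply, ← h2, ← map_add, add_comm, h1]

lemma proj_univ (y : JT 𝕜 V) : proj Set.univ y = y :=
  JT.ext fun v => co_proj_mem Set.ordConnected_univ y (Set.mem_univ v)

lemma sum_bs_le (b : ι → Br V) (hd : ∀ i j, i ≠ j → Disjoint (b i).s (b j).s) (y : JT 𝕜 V)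
    (I : Finset ι) : ∑ i ∈ I, ‖bs (b i) y‖ ^ 2 ≤ ‖y‖ ^ 2 := by
  have := sum_tail_le b (fun _ => Set.univ) (fun _ => isUpperSet_univ)
    (by simpa using hd) y I
  simpa [proj_univ] using this

end Pool.Agent.Lib.MP_064b94_an
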