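import Mathlib

namespace Pool.Agent.Lib.MP_064b94_an

/-- Weakly compactly generated: some weakly compact set has dense linear span. -/
def WCG (𝕜 Z : Type) [RCLike 𝕜] [NormedAddCommGroup Z] [NormedSpace 𝕜 Z] : Prop :=
  ∃ K : Set Z, IsCompact (toWeakSpace 𝕜 Z '' K) ∧ (Submodule.span 𝕜 K).topologicalClosure = ⊤

end Pool.Agent.Lib.MP_064b94_an
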