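import Pool.Agent.Lib.MP_064b94_an.Branch

open Filter Topology Classical

namespace Pool.Agent.Lib.MP_064b94_an

variable {𝕜 : Type} [RCLike 𝕜] {V : Type} [Forest V] {ι : Type}

lemma adm_ite {P : Finset (Finset V)} (hP : Adm P) (t : V) {c : ℝ} (hc : 0 ≤ c) :
    ∑ s ∈ P, (if t ∈ s then c else 0) ≤ c := by
  rw [← Finset.sum_filter, Finset.sum_const, nsmul_eq_mul]
  have : (P.filter (fun s => t ∈ s)).card ≤ 1 := by
    rw [Finset.card_le_one]
    intro s hs u hu
    rw [Finset.mem_filter] at hs hu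
    by_contra h
    exact Finset.disjoint_left.1 (hP.2 s hs.1 u hu.1 h) hs.2 hu.2
  have h2 : ((P.filter (fun s => t ∈ s)).card : ℝ) ≤ 1 := by exact_mod_cast this
  exact mul_le_of_le_one_left hc h2

lemma sg_eq_zero {s : Finset V} {y : JT 𝕜 V} (h : ∀ v ∈ s, co v y = 0) : sg s y = 0 := by
  rw [sg_apply]; exact Finset.sum_eq_zero h

lemma oc_Ici (t : V) : (Set.Ici t).OrdConnected := Set.ordConnected_Ici

lemma exists_cone_vec (f : StrongDual 𝕜 (JT 𝕜 V)) {δ : ℝ} (hδ : 0 < δ) (t : V)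
    (h : δ ≤ ‖tr (proj (Set.Ici t)) f‖) :
    ∃ y ∈ fs 𝕜 V, ‖y‖ ≤ 1 ∧ δ / 2 < RCLike.re (f y) ∧ ∀ v, ¬ t ≤ v → co v y = 0 := by
  obtain ⟨y, hy, h1, h2⟩ := exists_re_gt (tr (proj (Set.Ici t)) f) (r := δ / 2) (by positivity)
    (by linarith) dense_fs
  exact ⟨proj (Set.Ici t) y, proj_mem_fs (oc_Ici t) hy, (norm_proj_le _ _).trans h1, h2,
    fun v hv => co_proj_notMem (oc_Ici t) y hv⟩

lemma no_heavy_branch (f : StrongDual 𝕜 (JT 𝕜 V)) (b : Br V) (hb : bt b f = 0) {δ : ℝ}
    (hδ : 0 < δ) (h : ∀ t ∈ b.s, δ ≤ ‖tr (proj (Set.Ici t)) f‖) : False := by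
  have key : ∀ N : ℕ, ∃ x ∈ fs 𝕜 V, N * (δ / 4) ≤ RCLike.re (f x) ∧ ‖x‖ ^ 2 ≤ 12 * N ∧
      ∀ s, IsSeg s → ∀ t ∈ s, t ∈ b.s → (∀ v, t ≤ v → co v x = 0) → ‖sg s x‖ ≤ 2 := by
    intro N
    induction N with
    | zero => exact ⟨0, Submodule.zero_mem _, by simp, by simp, by simp⟩
    | succ N ih =>
      obtain ⟨x, ⟨F, hF⟩, hx1, hx2, hx3⟩ := ih
      obtain ⟨t, htb, htF⟩ := (b.ev_mem.and (b.ev_cone F)).exists
      have ha : ∀ v, t ≤ v → co v x = 0 := fun v hv => hF v fun hvF => htF v hvF hv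
      obtain ⟨y1, hy1, hn1, hf1, hs1⟩ := exists_cone_vec f hδ t (h t htb)
      have hu := Metric.tendsto_nhds.1 (bt_tendsto b f) (δ / 4) (by positivity)
      obtain ⟨u, ⟨hub, htu⟩, hfu⟩ := ((b.ev_mem.and (b.ev_ge htb)).and hu).exists
      rw [hb, dist_zero_right] at hfu
      have hσ : ‖bs b y1‖ ≤ 1 := (bs_le b y1).trans hn1
      set y : JT 𝕜 V := y1 - bs b y1 • e 𝕜 u with hy
      have hyfs : y ∈ fs 𝕜 V := Submodule.sub_mem _ hy1 (Submodule.smul_mem _ _ (e_mem_fs u))
      have hyb : bs b y = 0 := by simp [hy, bs_e_mem b hub]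
      have hyn : ‖y‖ ≤ 2 := by
        refine (norm_sub_le _ _).trans ?_
        rw [norm_smul]
        have := mul_le_one₀ hσ (norm_nonneg _) (norm_e_le (𝕜 := 𝕜) u)
        linarith
      have hyf : δ / 4 ≤ RCLike.re (f y) := by
        have h1 : ‖bs b y1 * f (e 𝕜 u)‖ ≤ δ / 4 := by
          rw [norm_mul]
          exact (mul_le_of_le_one_left (norm_nonneg _) hσ).trans hfu.le
        have h2 := (RCLike.re_le_norm _).trans h1
        rw [hy, map_sub, map_smul, smul_eq_mul, map_sub]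
        linarith
      have hb' : ∀ v, ¬ t ≤ v → co v y = 0 := fun v hv => by
        have : v ≠ u := fun h => hv (h ▸ htu)
        simp [hy, hs1 v hv, co_e, this]
      have claim1 : ∀ s, IsSeg s → t ∉ s → sg s x = 0 ∨ sg s y = 0 := by
        intro s hs hts
        by_contra hc
        rw [not_or, sg_apply, sg_apply] at hc
        obtain ⟨a, has, ha'⟩ := Finset.exists_ne_zero_of_sum_ne_zero hc.1
        obtain ⟨c, hcs, hc'⟩ := Finset.exists_ne_zero_of_sum_ne_zero hc.2
        have h1 : ¬ t ≤ a := fun h => ha' (ha a h)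
        have h2 : t ≤ c := by by_contra h; exact hc' (hb' c h)
        rcases hs.1 a has c hcs with h | h
        · rcases Forest.chain a t c h h2 with h' | h'
          · exact hts (hs.2 a has c hcs t h' h2)
          · exact h1 h'
        · exact h1 (h2.trans h)
      refine ⟨x + y, Submodule.add_mem _ ⟨F, hF⟩ hyfs, ?_, ?_, ?_⟩
      · rw [map_add, map_add]; push_cast; linarith
      · have := norm_add_sq_le x y (D := 8) fun P hP => by
          refine le_trans (Finset.sum_le_sum fun s hs => ?_) (adm_ite hP t (by norm_num))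
          split_ifs with hts
          · have h1 := hx3 s (hP.1 s hs) t hts htb ha
            have h2 := (seg_le (hP.1 s hs) y).trans hyn
            nlinarith [norm_nonneg (sg s x), norm_nonneg (sg s y)]
          · rcases claim1 s (hP.1 s hs) hts with h | h <;> simp [h]
        have h4 : ‖y‖ ^ 2 ≤ 2 ^ 2 := by gcongr
        push_cast
        linarith
      · intro s hs t' ht's ht'b hz
        have htt' : t ≤ t' := by
          rcases b.chain t htb t' ht'b with h | h
          · exact h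
          · exfalso
            have : y = 0 := JT.ext fun v => by
              by_cases hv : t ≤ v
              · have := hz v (h.trans hv)
                rw [map_add, ha v hv, zero_add] at this
                simpa using this
              · simpa using hb' v hv
            rw [this] at hyf
            simp only [map_zero] at hyf
            linarith
        have hy0 : ∀ v, t' ≤ v → co v y = 0 := fun v hv => by
          have := hz v hv
          rwa [map_add, ha v (htt'.trans hv), zero_add] at this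
        rw [map_add]
        by_cases hts : t ∈ s
        · have h1 : bs b y = sg (fl b.s s) y := by
            refine bs_eq b y s fun v hv hvs => ?_
            by_cases h : t ≤ v
            · rcases b.chain v hv t' ht'b with h' | h'
              · exact absurd (hs.2 t hts t' ht's v h h') hvs
              · exact hy0 v h'
            · exact hb' v h
          have h2 : sg (fl b.s s) y = sg s y := by
            rw [sg_apply, sg_apply]
            refine Finset.sum_subset (fun v hv => (mem_fl.1 hv).1) fun v hv hv' => ?_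
            rcases hs.1 v hv t' ht's with h' | h'
            · exact absurd (mem_fl.2 ⟨hv, b.lower h' ht'b⟩) hv'
            · exact hy0 v h'
          rw [← h2, ← h1, hyb, add_zero]
          exact hx3 s hs t hts htb ha
        · have h1 : sg s x = 0 := by
            refine sg_eq_zero fun a has => ha a ?_
            rcases hs.1 a has t' ht's with h' | h'
            · rcases Forest.chain a t t' h' htt' with h'' | h''
              · exact absurd (hs.2 a has t' ht's t h'' htt') hts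
              · exact h''
            · exact htt'.trans h'
          rw [h1, zero_add]
          exact (seg_le hs y).trans hyn
  refine false_of_growth f (δ := δ / 4) (C := 12) (by positivity) fun N => ?_
  obtain ⟨x, -, h1, h2, -⟩ := key N
  exact ⟨x, h1, h2⟩

lemma no_heavy_antichain (f : StrongDual 𝕜 (JT 𝕜 V)) {δ : ℝ} (hδ : 0 < δ) (t : ℕ → V)
    (ht : ∀ i j, i ≠ j → ¬ t i ≤ t j) (h : ∀ i, δ ≤ ‖tr (proj (Set.Ici (t i))) f‖) : False := by
  choose y hy hn hf hs using fun i => exists_cone_vec f hδ (t i) (h i)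
  refine false_of_growth f (δ := δ / 2) (C := 1) (by positivity) fun N => ?_
  refine ⟨∑ i ∈ Finset.range N, y i, ?_, ?_⟩
  · rw [map_sum, map_sum]
    have := Finset.card_nsmul_le_sum (Finset.range N) (fun i => RCLike.re (f (y i))) (δ / 2)
      fun i _ => (hf i).le
    simpa using this
  · refine (norm_sum_cones _ t y (fun i _ j _ => ht i j) fun i _ v hv => ?_).trans ?_
    · by_contra h'; exact hv (hs i v h')
    · have := Finset.sum_le_card_nsmul (Finset.range N) (fun i => ‖y i‖ ^ 2) 1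
        fun i _ => pow_le_one₀ (norm_nonneg _) (hn i)
      simpa using this

lemma cone_mono (f : StrongDual 𝕜 (JT 𝕜 V)) {t t' : V} (h : t' ≤ t) :
    ‖tr (proj (Set.Ici t)) f‖ ≤ ‖tr (proj (Set.Ici t')) f‖ := by
  refine ContinuousLinearMap.opNorm_le_bound _ (norm_nonneg (tr (proj (Set.Ici t')) f)) fun y => ?_
  have : proj (Set.Ici t') (proj (Set.Ici t) y) = proj (Set.Ici t) y := JT.ext fun v => by
    by_cases hv : t' ≤ v
    · exact co_proj_mem (oc_Ici t') _ hv
    · rw [co_proj_notMem (oc_Ici t') _ hv,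
        co_proj_notMem (oc_Ici t) _ fun h' => hv (h.trans h')]
  rw [tr_apply, ← this, ← tr_apply (proj (Set.Ici t'))]
  refine (ContinuousLinearMap.le_opNorm _ _).trans ?_
  gcongr
  exact norm_proj_le _ _

lemma finite_heavy (f : StrongDual 𝕜 (JT 𝕜 V)) (hf : ∀ b, bt b f = 0) {δ : ℝ} (hδ : 0 < δ) :
    {t | δ ≤ ‖tr (proj (Set.Ici t)) f‖}.Finite := by
  by_contra hi
  have hi' : {t | δ ≤ ‖tr (proj (Set.Ici t)) f‖}.Infinite := hi
  let u0 := hi'.natEmbedding
  let u : ℕ → V := fun n => (u0 n).1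
  have hu : Function.Injective u := Subtype.val_injective.comp u0.injective
  have hh : ∀ n, δ ≤ ‖tr (proj (Set.Ici (u n))) f‖ := fun n => (u0 n).2
  obtain ⟨g, hg | hg⟩ := exists_increasing_or_nonincreasing_subseq (· ≤ ·) u
  · have hmono : ∀ m n, m ≤ n → u (g m) ≤ u (g n) := fun m n h => by
      rcases h.eq_or_lt with rfl | h
      · exact le_rfl
      · exact hg m n h
    let b : Br V :=
      { s := {v | ∃ n, v ≤ u (g n)}
        inf := Set.infinite_of_injective_forall_mem (hu.comp g.injective) fun n => ⟨n, le_rfl⟩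
        lower := fun a c h ⟨n, hn⟩ => ⟨n, h.trans hn⟩
        chain := fun a ⟨m, hm⟩ c ⟨n, hn⟩ => Forest.chain a c (u (g (max m n)))
          (hm.trans (hmono _ _ (le_max_left _ _))) (hn.trans (hmono _ _ (le_max_right _ _))) }
    refine no_heavy_branch f b (hf b) hδ fun t ht => ?_
    obtain ⟨n, hn⟩ := ht
    exact (hh _).trans (cone_mono f hn)
  · obtain ⟨g', hg' | hg'⟩ := exists_increasing_or_nonincreasing_subseq (· ≥ ·) (u ∘ g)
    · refine Set.infinite_of_injective_forall_mem ((hu.comp g.injective).comp g'.injective)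
        (fun n => ?_) (Forest.fin_Iic (u (g (g' 0))))
      rcases Nat.eq_zero_or_pos n with rfl | h
      · exact le_rfl
      · exact hg' 0 n h
    · refine no_heavy_antichain f hδ (fun n => u (g (g' n))) (fun i j hij => ?_) fun i => hh _
      rcases lt_or_gt_of_ne hij with h | h
      · exact hg _ _ (g'.strictMono h)
      · exact hg' _ _ h

lemma exists_small_seg (f : StrongDual 𝕜 (JT 𝕜 V)) (hf : ∀ b, bt b f = 0) {ε : ℝ} (hε : 0 < ε)
    (h : ∀ F : Finset V, IsLowerSet (F : Set V) → ε < ‖tr (proj (F : Set V)ᶜ) f‖)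
    {ρ : ℝ} (hρ : 0 < ρ) :
    ∃ y ∈ fs 𝕜 V, ‖y‖ ≤ 1 ∧ ε / 2 ≤ RCLike.re (f y) ∧ ∀ s, IsSeg s → ‖sg s y‖ ≤ ρ := by
  have hδ : 0 < ε * ρ ^ 2 / 2 := by positivity
  obtain ⟨F, hTF, hF⟩ := exists_lower (finite_heavy f hf hδ).toFinset
  have hFc := hF.compl.ordConnected
  obtain ⟨y0, hy0, hn0, hf0⟩ := exists_re_gt _ hε.le (h F hF) dense_fs
  obtain ⟨G0, hG0⟩ := id hy0
  obtain ⟨G, hG0G, hG⟩ := exists_lower G0
  set z := proj (F : Set V)ᶜ y0 with hz
  have hzn : ‖z‖ ≤ 1 := (norm_proj_le _ _).trans hn0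
  let Big : Finset V := G.filter fun t => (t ∉ F ∧ ∀ t', t' < t → t' ∈ F) ∧
    ∃ s, IsSeg s ∧ (∀ v ∈ s, t ≤ v) ∧ ρ < ‖sg s y0‖
  have hinc : ∀ t ∈ Big, ∀ t' ∈ Big, ∀ v, t ≤ v → t' ≤ v → t = t' := by
    intro t ht t' ht' v h1 h2
    have a1 := (Finset.mem_filter.1 ht).2.1
    have a2 := (Finset.mem_filter.1 ht').2.1
    by_contra hne
    rcases Forest.chain t t' v h1 h2 with h | h
    · exact a1.1 (a2.2 t (lt_of_le_of_ne h hne))
    · exact a2.1 (a1.2 t' (lt_of_le_of_ne h (Ne.symm hne)))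
  have hcard : (Big.card : ℝ) * ρ ^ 2 ≤ 1 := by
    have : ∀ t, ∃ s, t ∈ Big → IsSeg s ∧ (∀ v ∈ s, t ≤ v) ∧ ρ < ‖sg s y0‖ := fun t => by
      by_cases ht : t ∈ Big
      · obtain ⟨s, hs⟩ := (Finset.mem_filter.1 ht).2.2
        exact ⟨s, fun _ => hs⟩
      · exact ⟨∅, fun h => absurd h ht⟩
    choose s hs using this
    have h1 := sum_sg_le Big s (fun t ht => (hs t ht).1) (fun t ht t' ht' hne => by
      rw [Finset.disjoint_left]
      intro v hv hv'
      exact hne (hinc t ht t' ht' v ((hs t ht).2.1 v hv) ((hs t' ht').2.1 v hv'))) y0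
    have h2 := Finset.card_nsmul_le_sum Big (fun t => ‖sg (s t) y0‖ ^ 2) (ρ ^ 2) fun t ht => by
      have := (hs t ht).2.2.le
      gcongr
    rw [nsmul_eq_mul] at h2
    have h3 : ‖y0‖ ^ 2 ≤ 1 := pow_le_one₀ (norm_nonneg _) hn0
    linarith
  let A : Set V := {v | ∀ t ∈ Big, ¬ t ≤ v}
  have hA : IsLowerSet A := fun a c hca ha t ht htc => ha t ht (htc.trans hca)
  have hdec : proj Aᶜ z = ∑ t ∈ Big, proj (Set.Ici t) z := by
    refine JT.ext fun v => ?_
    rw [map_sum]
    by_cases hv : v ∈ A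
    · rw [co_proj_notMem hA.compl.ordConnected _ (by simpa using hv)]
      exact (Finset.sum_eq_zero fun t ht => co_proj_notMem (oc_Ici t) _ (hv t ht)).symm
    · rw [co_proj_mem hA.compl.ordConnected _ hv]
      simp only [A, Set.mem_ofPred_eq, not_forall, not_not] at hv
      obtain ⟨t, ht, htv⟩ := hv
      rw [Finset.sum_eq_single_of_mem t ht, co_proj_mem (oc_Ici t) _ htv]
      intro t' ht' hne
      exact co_proj_notMem (oc_Ici t') _ fun h => hne (hinc t' ht' t ht v h htv)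
  have hsmall : ‖f (proj Aᶜ z)‖ ≤ ε / 2 := by
    rw [hdec, map_sum]
    refine (norm_sum_le _ _).trans ?_
    have h1 := Finset.sum_le_card_nsmul Big (fun t => ‖f (proj (Set.Ici t) z)‖) (ε * ρ ^ 2 / 2)
      fun t ht => by
        have a1 := (Finset.mem_filter.1 ht).2.1.1
        have a2 : ‖tr (proj (Set.Ici t)) f‖ ≤ ε * ρ ^ 2 / 2 := by
          by_contra hc
          exact a1 (hTF ((finite_heavy f hf hδ).mem_toFinset.2 (not_le.1 hc).le))
        have a3 := (tr (proj (Set.Ici t)) f).le_opNorm z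
        exact a3.trans ((mul_le_of_le_one_right (norm_nonneg _) hzn).trans a2)
    rw [nsmul_eq_mul] at h1
    refine h1.trans ?_
    nlinarith
  refine ⟨proj A z, proj_mem_fs hA.ordConnected (proj_mem_fs hFc hy0),
    (norm_proj_le _ _).trans hzn, ?_, fun s hs => ?_⟩
  · have h1 : f z = f (proj A z) + f (proj Aᶜ z) := by rw [← map_add, proj_add_compl hA]
    have h2 := (RCLike.re_le_norm _).trans hsmall
    rw [tr_apply, ← hz, h1, map_add] at hf0
    linarith
  · rw [sg_proj hA.ordConnected, hz, sg_proj hFc]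
    have hs' : IsSeg (fl (F : Set V)ᶜ (fl A s)) := (hs.filter hA.ordConnected).filter hFc
    by_cases h0 : sg (fl (F : Set V)ᶜ (fl A s)) y0 = 0
    · rw [h0, norm_zero]; exact hρ.le
    rw [sg_apply] at h0
    obtain ⟨v, hv, hv0⟩ := Finset.exists_ne_zero_of_sum_ne_zero h0
    have hvG : v ∈ G := hG0G (by by_contra hc; exact hv0 (hG0 v hc))
    have hvF : v ∉ F := (mem_fl.1 hv).2
    have hvA : v ∈ A := (mem_fl.1 (mem_fl.1 hv).1).2
    obtain ⟨t, ht⟩ := ((Forest.fin_Iic v).sdiff (t := (F : Set V))).exists_minimal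
      ⟨v, le_rfl, hvF⟩
    have htv : t ≤ v := ht.1.1
    have hroot : ∀ t', t' < t → t' ∈ F := fun t' h' => by
      by_contra hc
      exact h'.not_ge (ht.2 ⟨h'.le.trans htv, hc⟩ h'.le)
    by_contra hc
    refine hvA t (Finset.mem_filter.2 ⟨hG htv hvG, ⟨ht.1.2, hroot⟩, _, hs', ?_, not_le.1 hc⟩) htv
    intro w hw
    rcases hs'.1 v hv w hw with h' | h'
    · exact htv.trans h'
    · rcases Forest.chain t w v htv h' with h'' | h''
      · exact h''
      · rcases h''.eq_or_lt with h3 | h3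
        · exact h3.ge
        · exact absurd (hroot w h3) (mem_fl.1 hw).2

lemma sum_norm_sg_le {P : Finset (Finset V)} (hP : Adm P) (x : JT 𝕜 V) (F : Finset V)
    (hF : ∀ v, v ∉ F → co v x = 0) : ∑ s ∈ P, ‖sg s x‖ ≤ ∑ v ∈ F, ‖co v x‖ := by
  calc ∑ s ∈ P, ‖sg s x‖ ≤ ∑ s ∈ P, ∑ v ∈ s, ‖co v x‖ :=
        Finset.sum_le_sum fun s _ => by rw [sg_apply]; exact norm_sum_le _ _
    _ = ∑ v ∈ P.biUnion id, ‖co v x‖ :=
        (Finset.sum_biUnion (t := id) fun s hs t ht h => hP.2 s hs t ht h).symm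
    _ ≤ ∑ v ∈ P.biUnion id ∪ F, ‖co v x‖ :=
        Finset.sum_le_sum_of_subset_of_nonneg Finset.subset_union_left fun _ _ _ => norm_nonneg _
    _ = _ := (Finset.sum_subset Finset.subset_union_right fun v _ hv => by simp [hF v hv]).symm

lemma tail_small (f : StrongDual 𝕜 (JT 𝕜 V)) (hf : ∀ b, bt b f = 0) {ε : ℝ} (hε : 0 < ε) :
    ∃ F : Finset V, IsLowerSet (F : Set V) ∧ ‖tr (proj (F : Set V)ᶜ) f‖ ≤ ε := by
  by_contra hc
  push Not at hc
  have key : ∀ N : ℕ, ∃ x ∈ fs 𝕜 V, N * (ε / 2) ≤ RCLike.re (f x) ∧ ‖x‖ ^ 2 ≤ 2 * N := by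
    intro N
    induction N with
    | zero => exact ⟨0, Submodule.zero_mem _, by simp, by simp⟩
    | succ N ih =>
      obtain ⟨x, ⟨F, hF⟩, hx1, hx2⟩ := ih
      set L := ∑ v ∈ F, ‖co v x‖ with hL
      have hL0 : 0 ≤ L := Finset.sum_nonneg fun _ _ => norm_nonneg _
      obtain ⟨y, hy, hn, hfy, hs⟩ := exists_small_seg f hf hε hc
        (ρ := 1 / (2 * (L + 1))) (by positivity)
      refine ⟨x + y, Submodule.add_mem _ ⟨F, hF⟩ hy, ?_, ?_⟩
      · rw [map_add, map_add]; push_cast; linarith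
      · have := norm_add_sq_le x y (D := 1) fun P hP => by
          calc ∑ s ∈ P, 2 * (‖sg s x‖ * ‖sg s y‖)
              ≤ ∑ s ∈ P, 2 * (‖sg s x‖ * (1 / (2 * (L + 1)))) :=
                Finset.sum_le_sum fun s hs' => by
                  have := hs s (hP.1 s hs')
                  gcongr
            _ = 2 * ((∑ s ∈ P, ‖sg s x‖) * (1 / (2 * (L + 1)))) := by
                rw [← Finset.mul_sum, ← Finset.sum_mul]
            _ ≤ 2 * ((L + 1) * (1 / (2 * (L + 1)))) := by
                have := sum_norm_sg_le hP x F hF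
                gcongr
                linarith
            _ = 1 := by field_simp
        have h4 : ‖y‖ ^ 2 ≤ 1 := pow_le_one₀ (norm_nonneg _) hn
        push_cast
        linarith
  refine false_of_growth f (δ := ε / 2) (C := 2) (by positivity) fun N => ?_
  obtain ⟨x, -, h1, h2⟩ := key N
  exact ⟨x, h1, h2⟩

lemma vanish_of_bt (ξ : StrongDual 𝕜 (StrongDual 𝕜 (JT 𝕜 V))) (hξ : ∀ v, ξ (co v) = 0)
    (f : StrongDual 𝕜 (JT 𝕜 V)) (hf : ∀ b, bt b f = 0) : ξ f = 0 := by
  rw [← norm_le_zero_iff]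
  refine le_of_forall_pos_le_add fun ε hε => ?_
  obtain ⟨F, hF, h⟩ := tail_small f hf (ε := ε / (‖ξ‖ + 1)) (by positivity)
  have h1 : f = ∑ v ∈ F, f (e 𝕜 v) • co v + tr (proj (F : Set V)ᶜ) f := by
    ext y
    have h2 := eq_sum_e (proj (F : Set V) y) F fun v hv => co_proj_notMem hF.ordConnected y hv
    rw [add_apply, tr_apply, sum_apply]
    conv_lhs => rw [← proj_add_compl hF y, map_add, h2, map_sum]
    congr 1
    refine Finset.sum_congr rfl fun v hv => ?_
    rw [co_proj_mem hF.ordConnected y hv]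
    simp [mul_comm]
  have h3 : ξ f = ξ (tr (proj (F : Set V)ᶜ) f) := by
    conv_lhs => rw [h1]
    simp [hξ]
  rw [h3, zero_add]
  refine (ξ.le_opNorm _).trans ?_
  calc ‖ξ‖ * ‖tr (proj (F : Set V)ᶜ) f‖ ≤ (‖ξ‖ + 1) * (ε / (‖ξ‖ + 1)) := by
        gcongr; linarith
    _ = ε := by field_simp

lemma tail_data (I : Set (Br V)) (hI : I.Finite) (b : Br V) (hb : b ∉ I) :
    IsUpperSet (⋃ c ∈ I, c.s)ᶜ ∧ (b.s \ (⋃ c ∈ I, c.s)ᶜ).Finite := by
  refine ⟨(isLowerSet_iUnion₂ fun c _ => c.lower).compl, ?_⟩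
  rw [Set.sdiff_compl, Set.inter_iUnion₂]
  exact hI.biUnion fun c hc => Br.inter_finite fun h => hb (h ▸ hc)

lemma apply_tail (ξ : StrongDual 𝕜 (StrongDual 𝕜 (JT 𝕜 V))) (hξ : ∀ v, ξ (co v) = 0) (b : Br V)
    {U : Set V} (hU : IsUpperSet U) (h : (b.s \ U).Finite) :
    ξ (tr (proj U) (bs b)) = ξ (bs b) := by
  conv_rhs => rw [tail_eq b hU h]
  simp [sg, hξ]

theorem dual_thm (ξ : StrongDual 𝕜 (StrongDual 𝕜 (JT 𝕜 V))) (h1 : ∀ v, ξ (co v) = 0)
    (h2 : ∀ b, ξ (bs b) = 0) : ξ = 0 := by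
  ext f
  have hsum := summable_sq_of_le (sum_bt_le f)
  let S : Set (Br V) := {b | bt b f ≠ 0}
  have hS : S.Countable := hsum.countable_support.mono fun b hb => by simpa [S] using hb
  obtain ⟨enc, henc⟩ := Set.countable_iff_exists_injOn.1 hS
  let I : S → Set (Br V) := fun b => {c | c ∈ S ∧ enc c < enc b}
  have hI : ∀ b, (I b).Finite := fun b =>
    Set.Finite.of_finite_image (f := enc) ((Set.finite_Iio (enc b)).subset (by
      rintro _ ⟨c, hc, rfl⟩; exact hc.2)) (henc.mono fun c hc => hc.1)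
  have hb : ∀ b : S, b.1 ∉ I b := fun b h => lt_irrefl _ h.2
  let U : S → Set V := fun b => (⋃ c ∈ I b, c.s)ᶜ
  have hU : ∀ b, IsUpperSet (U b) := fun b => (tail_data (I b) (hI b) b (hb b)).1
  have hfin : ∀ b : S, (b.1.s \ U b).Finite := fun b => (tail_data (I b) (hI b) b (hb b)).2
  have hd : ∀ b c : S, enc b < enc c → Disjoint (b.1.s ∩ U b) (c.1.s ∩ U c) := by
    intro b c h
    rw [Set.disjoint_left]
    intro v hv hv'
    exact hv'.2 (Set.mem_iUnion₂.2 ⟨b, ⟨b.2, h⟩, hv.1⟩)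
  have hup : UpL2 𝕜 (fun b : S => tr (proj (U b)) (bs b.1 : StrongDual 𝕜 (JT 𝕜 V))) := by
    refine UpL2.of_dual _ (sum_tail_le _ U hU fun b c hbc => ?_)
    have : enc b ≠ enc c := fun h => hbc (Subtype.ext (henc b.2 c.2 h))
    rcases lt_or_gt_of_ne this with h | h
    · exact hd b c h
    · exact (hd c b h).symm
  obtain ⟨g, hg⟩ := hup.summable (a := fun b : S => bt b.1 f) (hsum.subtype S)
  have hξg : ξ g = 0 := by
    have := ξ.hasSum hg
    simp only [map_smul, apply_tail ξ h1 _ (hU _) (hfin _), h2, smul_zero] at this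
    exact this.unique hasSum_zero
  have hbg : ∀ b, bt b (f - g) = 0 := by
    intro b
    have := (bt b).hasSum hg
    simp only [map_smul, apply_tail (bt b) (bt_co b) _ (hU _) (hfin _)] at this
    rw [map_sub, sub_eq_zero]
    by_cases hbS : b ∈ S
    · have h3 := hasSum_single (f := fun c : S => bt c.1 f • bt b (bs c.1 : StrongDual 𝕜 (JT 𝕜 V)))
        ⟨b, hbS⟩ fun c hc => by
          rw [bt_bs_ne fun h => hc (Subtype.ext h.symm), smul_zero]
      rw [this.unique h3, bt_bs_self]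
      simp
    · have h3 : ∀ c : S, bt c.1 f • bt b (bs c.1 : StrongDual 𝕜 (JT 𝕜 V)) = 0 := fun c => by
        have hbc : b ≠ c.1 := fun h => hbS (by rw [h]; exact c.2)
        rw [bt_bs_ne hbc, smul_zero]
      simp only [h3] at this
      rw [this.unique hasSum_zero]
      simpa [S] using hbS
  have := vanish_of_bt ξ h1 _ hbg
  rw [map_sub, hξg, sub_zero] at this
  simpa using this

/-- canonical embedding in the bidual -/
noncomputable def jj (𝕜 V : Type) [RCLike 𝕜] [Forest V] :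
    JT 𝕜 V →L[𝕜] StrongDual 𝕜 (StrongDual 𝕜 (JT 𝕜 V)) :=
  NormedSpace.inclusionInDoubleDual 𝕜 (JT 𝕜 V)

@[simp] lemma jj_apply (y : JT 𝕜 V) (f : StrongDual 𝕜 (JT 𝕜 V)) : jj 𝕜 V y f = f y := rfl

/-- evaluation at a functional -/
noncomputable def jj' (f : StrongDual 𝕜 (JT 𝕜 V)) :
    StrongDual 𝕜 (StrongDual 𝕜 (StrongDual 𝕜 (JT 𝕜 V))) :=
  NormedSpace.inclusionInDoubleDual 𝕜 (StrongDual 𝕜 (JT 𝕜 V)) f

@[simp] lemma jj'_apply (f : StrongDual 𝕜 (JT 𝕜 V)) (ξ : StrongDual 𝕜 (StrongDual 𝕜 (JT 𝕜 V))) :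
    jj' f ξ = ξ f := rfl

theorem decomp (ξ : StrongDual 𝕜 (StrongDual 𝕜 (JT 𝕜 V))) :
    ∃ y : JT 𝕜 V, (∀ v, co v y = ξ (co v)) ∧
      HasSum (fun b : Br V => (ξ (bs b) - bs b y) • bt b) (ξ - jj 𝕜 V y) ∧
      Summable (fun b : Br V => ‖ξ (bs b) - bs b y‖ ^ 2) := by
  obtain ⟨y, hy⟩ := exists_mk (fun v => ξ (co v)) (‖ξ‖ ^ 2) fun P hP => by
    have h1 : UpL2 𝕜 (fun s : P => (sg s.1 : StrongDual 𝕜 (JT 𝕜 V))) :=
      UpL2.of_dual _ fun y I => sum_sg_le I _ (fun s _ => hP.1 s s.2)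
        (fun s _ t _ h => hP.2 s s.2 t t.2 fun h' => h (Subtype.ext h')) y
    have h2 := h1.dual ξ Finset.univ
    rw [Finset.sum_coe_sort P (fun s => ‖ξ (sg s)‖ ^ 2)] at h2
    simpa [sg] using h2
  set ζ := ξ - jj 𝕜 V y with hζ
  have hζ0 : ∀ v, ζ (co v) = 0 := fun v => by simp [hζ, hy]
  have hζb : ∀ b : Br V, ξ (bs b) - bs b y = ζ (bs b) := fun b => by simp [hζ]
  have hsum : Summable (fun b : Br V => ‖ζ (bs b)‖ ^ 2) := by
    refine summable_sq_of_le (C := ‖ζ‖ ^ 2) fun I => ?_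
    let J : I → Set (Br V) := fun b => (I : Set (Br V)) \ {b.1}
    have hJ : ∀ b, (J b).Finite := fun b => I.finite_toSet.sdiff
    have hb : ∀ b : I, b.1 ∉ J b := fun b h => h.2 rfl
    let U : I → Set V := fun b => (⋃ c ∈ J b, c.s)ᶜ
    have hU : ∀ b, IsUpperSet (U b) := fun b => (tail_data (J b) (hJ b) b (hb b)).1
    have hfin : ∀ b : I, (b.1.s \ U b).Finite := fun b => (tail_data (J b) (hJ b) b (hb b)).2
    have hup : UpL2 𝕜 (fun b : I => tr (proj (U b)) (bs b.1 : StrongDual 𝕜 (JT 𝕜 V))) := by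
      refine UpL2.of_dual _ (sum_tail_le _ U hU fun b c hbc => ?_)
      rw [Set.disjoint_left]
      intro v hv hv'
      exact hv'.2 (Set.mem_iUnion₂.2 ⟨b, ⟨b.2, fun h => hbc (Subtype.ext h)⟩, hv.1⟩)
    have h2 := hup.dual ζ Finset.univ
    simp only [apply_tail ζ hζ0 _ (hU _) (hfin _)] at h2
    rwa [Finset.sum_coe_sort I (fun b => ‖ζ (bs b)‖ ^ 2)] at h2
  refine ⟨y, hy, ?_, by simpa only [hζb] using hsum⟩
  simp only [hζb]
  obtain ⟨w, hw⟩ := upL2_bt.summable hsum
  have : ζ - w = 0 := by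
    refine dual_thm _ (fun v => ?_) fun b => ?_
    · have := (jj' (co v)).hasSum hw
      simp only [jj'_apply, smul_apply, bt_co, smul_zero] at this
      simp [hζ0, this.unique hasSum_zero]
    · have := (jj' (bs b)).hasSum hw
      simp only [jj'_apply, smul_apply] at this
      have h3 := hasSum_single
        (f := fun c : Br V => ζ (bs c) • bt c (bs b : StrongDual 𝕜 (JT 𝕜 V))) b fun c hc => by
          rw [bt_bs_ne hc, smul_zero]
      simp [this.unique h3, bt_bs_self]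
  have h5 : ζ = w := by
    ext f
    have h6 := congrArg (fun T : StrongDual 𝕜 (StrongDual 𝕜 (JT 𝕜 V)) => T f) this
    simpa [sub_eq_zero] using h6
  rw [← h5] at hw
  exact hw

end Pool.Agent.Lib.MP_064b94_an
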