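import Pool.Agent.Lib.MP_064b94_an.L2

open Filter Topology Classical

namespace Pool.Agent.Lib.MP_064b94_an

/-- forests of height at most omega -/
class Forest (V : Type) extends PartialOrder V where
  fin_Iic : ∀ v : V, (Set.Iic v).Finite
  chain : ∀ a b c : V, a ≤ c → b ≤ c → a ≤ b ∨ b ≤ a

variable {𝕜 : Type} [RCLike 𝕜] {V : Type} [Forest V] {ι : Type}

def IsSeg (s : Finset V) : Prop :=
  (∀ a ∈ s, ∀ b ∈ s, a ≤ b ∨ b ≤ a) ∧ ∀ a ∈ s, ∀ c ∈ s, ∀ b, a ≤ b → b ≤ c → b ∈ s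

def Adm (P : Finset (Finset V)) : Prop :=
  (∀ s ∈ P, IsSeg s) ∧ ∀ s ∈ P, ∀ t ∈ P, s ≠ t → Disjoint s t

lemma adm_empty : Adm (∅ : Finset (Finset V)) := ⟨by simp, by simp⟩

noncomputable def q (P : Finset (Finset V)) (y : V → 𝕜) : ℝ := ∑ s ∈ P, ‖∑ v ∈ s, y v‖ ^ 2

omit [Forest V] in
lemma q_nonneg (P : Finset (Finset V)) (y : V → 𝕜) : 0 ≤ q P y :=
  Finset.sum_nonneg fun _ _ => by positivity

lemma sum_sq_add_le (I : Finset ι) (a b : ι → 𝕜) :
    ∑ i ∈ I, ‖a i + b i‖ ^ 2 ≤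
      ∑ i ∈ I, ‖a i‖ ^ 2 + ∑ i ∈ I, ‖b i‖ ^ 2 + ∑ i ∈ I, 2 * (‖a i‖ * ‖b i‖) := by
  rw [← Finset.sum_add_distrib, ← Finset.sum_add_distrib]
  refine Finset.sum_le_sum fun i _ => ?_
  calc ‖a i + b i‖ ^ 2 ≤ (‖a i‖ + ‖b i‖) ^ 2 := by gcongr; exact norm_add_le _ _
    _ = _ := by ring

omit [Forest V] in
lemma sqrt_q_add (P : Finset (Finset V)) (x y : V → 𝕜) :
    √(q P (x + y)) ≤ √(q P x) + √(q P y) := by
  rw [Real.sqrt_le_iff]
  refine ⟨by positivity, ?_⟩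
  have h1 := sum_sq_add_le P (fun s => ∑ v ∈ s, x v) (fun s => ∑ v ∈ s, y v)
  have h2 := Real.sum_mul_le_sqrt_mul_sqrt P (fun s => ‖∑ v ∈ s, x v‖) (fun s => ‖∑ v ∈ s, y v‖)
  rw [← Finset.mul_sum] at h1
  have h3 : q P (x + y) = ∑ s ∈ P, ‖∑ v ∈ s, x v + ∑ v ∈ s, y v‖ ^ 2 := by
    simp [q, Finset.sum_add_distrib]
  rw [h3, add_sq, Real.sq_sqrt (q_nonneg P x), Real.sq_sqrt (q_nonneg P y)]
  change _ ≤ q P x + q P y + _ at h1
  change _ ≤ √(q P x) * √(q P y) at h2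
  linarith

omit [Forest V] in
lemma q_smul (P : Finset (Finset V)) (c : 𝕜) (x : V → 𝕜) : q P (c • x) = ‖c‖ ^ 2 * q P x := by
  simp [q, ← Finset.mul_sum, mul_pow]

def sub (𝕜 V : Type) [RCLike 𝕜] [Forest V] : Submodule 𝕜 (V → 𝕜) where
  carrier := {y | ∃ C, ∀ P, Adm P → √(q P y) ≤ C}
  add_mem' := by
    rintro x y ⟨C, hC⟩ ⟨D, hD⟩
    exact ⟨C + D, fun P hP => (sqrt_q_add P x y).trans (add_le_add (hC P hP) (hD P hP))⟩
  zero_mem' := ⟨0, fun P _ => by simp [q]⟩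
  smul_mem' := by
    rintro c x ⟨C, hC⟩
    refine ⟨‖c‖ * C, fun P hP => ?_⟩
    rw [q_smul, Real.sqrt_mul (by positivity), Real.sqrt_sq (norm_nonneg _)]
    gcongr
    exact hC P hP

/-- the James space of a forest -/
def JT (𝕜 V : Type) [RCLike 𝕜] [Forest V] : Type := ↥(sub 𝕜 V)

section Construction

@[reducible] noncomputable def acg : AddCommGroup (JT 𝕜 V) :=
  inferInstanceAs (AddCommGroup ↥(sub 𝕜 V))

attribute [local instance] acg

@[reducible] noncomputable def mdl : Module 𝕜 (JT 𝕜 V) := inferInstanceAs (Module 𝕜 ↥(sub 𝕜 V))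

attribute [local instance] mdl

def JT.val : JT 𝕜 V →ₗ[𝕜] (V → 𝕜) := (sub 𝕜 V).subtype

lemma JT.val_inj : Function.Injective (JT.val : JT 𝕜 V → V → 𝕜) := Subtype.val_injective

instance : Nonempty {P : Finset (Finset V) // Adm P} := ⟨⟨∅, adm_empty⟩⟩

noncomputable def nrm (y : JT 𝕜 V) : ℝ := ⨆ P : {P : Finset (Finset V) // Adm P}, √(q P.1 (JT.val y))

lemma le_nrm (y : JT 𝕜 V) {P : Finset (Finset V)} (hP : Adm P) : √(q P (JT.val y)) ≤ nrm y := by
  obtain ⟨C, hC⟩ := y.2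
  refine le_ciSup (f := fun P : {P : Finset (Finset V) // Adm P} => √(q P.1 (JT.val y)))
    ⟨C, ?_⟩ ⟨P, hP⟩
  rintro _ ⟨P, rfl⟩
  exact hC P.1 P.2

lemma nrm_le (y : JT 𝕜 V) {C : ℝ} (h : ∀ P, Adm P → √(q P (JT.val y)) ≤ C) : nrm y ≤ C :=
  ciSup_le fun P => h P.1 P.2

lemma isSeg_single (v : V) : IsSeg ({v} : Finset V) := by
  refine ⟨by simp, ?_⟩
  intro a ha c hc b h1 h2
  simp only [Finset.mem_singleton] at *
  subst ha hc
  exact le_antisymm h2 h1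

lemma adm_single {s : Finset V} (hs : IsSeg s) : Adm ({s} : Finset (Finset V)) :=
  ⟨by simpa using hs, by simp⟩

lemma seg_le_nrm (y : JT 𝕜 V) {s : Finset V} (hs : IsSeg s) : ‖∑ v ∈ s, JT.val y v‖ ≤ nrm y := by
  have := le_nrm y (adm_single hs)
  simpa [q] using this

lemma nrm_smul_le (c : 𝕜) (y : JT 𝕜 V) : nrm (c • y) ≤ ‖c‖ * nrm y := by
  refine nrm_le _ fun P hP => ?_
  rw [map_smul, q_smul, Real.sqrt_mul (by positivity), Real.sqrt_sq (norm_nonneg _)]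
  gcongr
  exact le_nrm y hP

noncomputable def grpNorm (𝕜 V : Type) [RCLike 𝕜] [Forest V] : AddGroupNorm (JT 𝕜 V) where
  toFun := nrm
  map_zero' := le_antisymm (nrm_le _ fun P _ => by simp [q])
    ((Real.sqrt_nonneg _).trans (le_nrm _ adm_empty))
  add_le' := fun x y => nrm_le _ fun P hP => by
    rw [map_add]
    exact (sqrt_q_add P _ _).trans (add_le_add (le_nrm x hP) (le_nrm y hP))
  neg' := fun x => by
    have h : ∀ x : JT 𝕜 V, nrm (-x) ≤ nrm x := fun x => by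
      simpa using nrm_smul_le (-1 : 𝕜) x
    exact le_antisymm (h x) (by simpa using h (-x))
  eq_zero_of_map_eq_zero' := fun x hx => by
    apply JT.val_inj
    funext v
    have := seg_le_nrm x (isSeg_single v)
    rw [hx] at this
    simpa using this

noncomputable instance : NormedAddCommGroup (JT 𝕜 V) := (grpNorm 𝕜 V).toNormedAddCommGroup

lemma norm_def (y : JT 𝕜 V) : ‖y‖ = nrm y := rfl

noncomputable instance : NormedSpace 𝕜 (JT 𝕜 V) where
  toModule := mdl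
  norm_smul_le := nrm_smul_le

end Construction

/-- coordinate functional -/
noncomputable def co (v : V) : StrongDual 𝕜 (JT 𝕜 V) :=
  LinearMap.mkContinuous
    { toFun := fun y => JT.val y v
      map_add' := fun _ _ => rfl
      map_smul' := fun _ _ => rfl } 1 fun y => by
    have := seg_le_nrm y (isSeg_single v)
    rw [Finset.sum_singleton] at this
    rw [one_mul]
    exact this

lemma co_apply (v : V) (y : JT 𝕜 V) : co v y = JT.val y v := rfl

lemma JT.ext {x y : JT 𝕜 V} (h : ∀ v, co v x = co v y) : x = y :=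
  JT.val_inj (funext h)

/-- segment functional -/
noncomputable def sg (s : Finset V) : StrongDual 𝕜 (JT 𝕜 V) := ∑ v ∈ s, co v

lemma sg_apply (s : Finset V) (y : JT 𝕜 V) : sg s y = ∑ v ∈ s, co v y := by
  simp [sg]

lemma q_eq (P : Finset (Finset V)) (y : JT 𝕜 V) :
    q P (JT.val y) = ∑ s ∈ P, ‖sg s y‖ ^ 2 := by
  simp [q, sg_apply, co_apply]

lemma adm_le {P : Finset (Finset V)} (hP : Adm P) (y : JT 𝕜 V) :
    ∑ s ∈ P, ‖sg s y‖ ^ 2 ≤ ‖y‖ ^ 2 := by
  rw [← q_eq]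
  exact (Real.sqrt_le_iff.1 (le_nrm y hP)).2

lemma norm_sq_le (y : JT 𝕜 V) {C : ℝ} (h : ∀ P, Adm P → ∑ s ∈ P, ‖sg s y‖ ^ 2 ≤ C) :
    ‖y‖ ^ 2 ≤ C := by
  have hC : 0 ≤ C := by simpa using h ∅ adm_empty
  have : ‖y‖ ≤ √C := nrm_le y fun P hP => Real.sqrt_le_sqrt (by rw [q_eq]; exact h P hP)
  calc ‖y‖ ^ 2 ≤ (√C) ^ 2 := by gcongr
    _ = C := Real.sq_sqrt hC

lemma exists_mk (y : V → 𝕜) (C : ℝ) (h : ∀ P, Adm P → ∑ s ∈ P, ‖∑ v ∈ s, y v‖ ^ 2 ≤ C) :
    ∃ x : JT 𝕜 V, ∀ v, co v x = y v :=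
  ⟨⟨y, √C, fun P hP => Real.sqrt_le_sqrt (h P hP)⟩, fun _ => rfl⟩

lemma seg_le {s : Finset V} (hs : IsSeg s) (y : JT 𝕜 V) : ‖sg s y‖ ≤ ‖y‖ := by
  rw [sg_apply]; exact seg_le_nrm y hs

lemma co_le (v : V) (y : JT 𝕜 V) : ‖co v y‖ ≤ ‖y‖ := by
  simpa [sg] using seg_le (isSeg_single v) y

lemma sum_sg_le (I : Finset ι) (s : ι → Finset V) (hs : ∀ i ∈ I, IsSeg (s i))
    (hd : ∀ i ∈ I, ∀ j ∈ I, i ≠ j → Disjoint (s i) (s j)) (y : JT 𝕜 V) :
    ∑ i ∈ I, ‖sg (s i) y‖ ^ 2 ≤ ‖y‖ ^ 2 := by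
  have hP : Adm (I.image s) := by
    constructor
    · intro t ht
      obtain ⟨i, hi, rfl⟩ := Finset.mem_image.1 ht
      exact hs i hi
    · intro t ht u hu htu
      obtain ⟨i, hi, rfl⟩ := Finset.mem_image.1 ht
      obtain ⟨j, hj, rfl⟩ := Finset.mem_image.1 hu
      exact hd i hi j hj fun h => htu (by rw [h])
  refine le_trans (le_of_eq ?_) (adm_le hP y)
  symm
  refine Finset.sum_image_of_pairwise_eq_zero ?_
  intro i hi j hj hij h
  have := hd i hi j hj hij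
  rw [← h, disjoint_self, Finset.bot_eq_empty] at this
  simp [this, sg]

lemma sum_co_le (y : JT 𝕜 V) (I : Finset V) : ∑ v ∈ I, ‖co v y‖ ^ 2 ≤ ‖y‖ ^ 2 := by
  have := sum_sg_le I (fun v => {v}) (fun v _ => isSeg_single v)
    (fun a _ b _ h => by simpa using h) y
  simpa [sg] using this

lemma countable_supp (y : JT 𝕜 V) : {v | co v y ≠ 0}.Countable := by
  have := (summable_sq_of_le (sum_co_le y)).countable_support
  refine this.mono fun v hv => ?_
  simpa using hv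

instance : CompleteSpace (JT 𝕜 V) := by
  refine Metric.complete_of_cauchySeq_tendsto fun u hu => ?_
  have h1 : ∀ v, ∃ a, Tendsto (fun n => co v (u n)) atTop (𝓝 a) := fun v =>
    cauchySeq_tendsto_of_complete
      ((co v : StrongDual 𝕜 (JT 𝕜 V)).uniformContinuous.comp_cauchySeq hu)
  choose y hy using h1
  have key : ∀ (z : JT 𝕜 V) (C : ℝ) (N : ℕ), (∀ n ≥ N, ‖u n - z‖ ≤ C) → ∀ P, Adm P →
      ∑ s ∈ P, ‖∑ v ∈ s, (y v - co v z)‖ ^ 2 ≤ C ^ 2 := by
    intro z C N h P hP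
    have ht : Tendsto (fun n => ∑ s ∈ P, ‖∑ v ∈ s, (co v (u n) - co v z)‖ ^ 2) atTop
        (𝓝 (∑ s ∈ P, ‖∑ v ∈ s, (y v - co v z)‖ ^ 2)) :=
      tendsto_finsetSum _ fun s _ =>
        (tendsto_finsetSum _ fun v _ => (hy v).sub_const _).norm.pow 2
    refine le_of_tendsto ht (eventually_atTop.2 ⟨N, fun n hn => ?_⟩)
    have := adm_le hP (u n - z)
    simp only [sg_apply, map_sub (co _)] at this
    refine this.trans ?_
    gcongr
    exact h n hn
  obtain ⟨R, -, hR⟩ := cauchySeq_bdd hu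
  obtain ⟨x0, hx0⟩ := exists_mk (fun v => y v - co v (u 0)) (R ^ 2)
    (key (u 0) R 0 fun n _ => by rw [← dist_eq_norm]; exact (hR n 0).le)
  refine ⟨x0 + u 0, Metric.tendsto_atTop.2 fun ε hε => ?_⟩
  obtain ⟨N, hN⟩ := Metric.cauchySeq_iff.1 hu (ε / 2) (by positivity)
  refine ⟨N, fun n hn => ?_⟩
  rw [dist_comm, dist_eq_norm]
  have := norm_sq_le (x0 + u 0 - u n) (C := (ε / 2) ^ 2) fun P hP => by
    have := key (u n) (ε / 2) N (fun m hm => by rw [← dist_eq_norm]; exact (hN m hm n hn).le) P hP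
    simpa [sg_apply, hx0] using this
  have h2 := (abs_le_of_sq_le_sq' this (by positivity)).2
  linarith

/-- part of a finite set inside a set -/
noncomputable def fl (A : Set V) (s : Finset V) : Finset V := s.filter (· ∈ A)

omit [Forest V] in
@[simp] lemma mem_fl {A : Set V} {s : Finset V} {v : V} : v ∈ fl A s ↔ v ∈ s ∧ v ∈ A :=
  Finset.mem_filter

omit [Forest V] in
lemma disjoint_fl {A : Set V} {s t : Finset V} (h : Disjoint s t) : Disjoint (fl A s) (fl A t) :=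
  Finset.disjoint_filter_filter h

lemma IsSeg.filter {s : Finset V} (hs : IsSeg s) {A : Set V} (hA : A.OrdConnected) :
    IsSeg (fl A s) := by
  constructor
  · intro a ha b hb
    exact hs.1 a (mem_fl.1 ha).1 b (mem_fl.1 hb).1
  · intro a ha c hc b h1 h2
    rw [mem_fl] at *
    exact ⟨hs.2 a ha.1 c hc.1 b h1 h2, hA.out ha.2 hc.2 ⟨h1, h2⟩⟩

lemma exists_proj {A : Set V} (hA : A.OrdConnected) :
    ∃ T : JT 𝕜 V →L[𝕜] JT 𝕜 V, (∀ y v, co v (T y) = if v ∈ A then co v y else 0) ∧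
      ∀ y, ‖T y‖ ≤ ‖y‖ := by
  have key : ∀ (y : JT 𝕜 V) P, Adm P →
      ∑ s ∈ P, ‖∑ v ∈ s, (if v ∈ A then co v y else 0)‖ ^ 2 ≤ ‖y‖ ^ 2 := by
    intro y P hP
    have := sum_sg_le P (fun s => fl A s) (fun s hs => (hP.1 s hs).filter hA)
      (fun s hs t ht h => disjoint_fl (hP.2 s hs t ht h)) y
    simpa [sg_apply, fl, Finset.sum_filter] using this
  choose T hT using fun y : JT 𝕜 V => exists_mk _ _ (key y)
  have hn : ∀ y, ‖T y‖ ≤ ‖y‖ := fun y => by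
    have := norm_sq_le (T y) (C := ‖y‖ ^ 2) fun P hP => by
      simpa [sg_apply, hT] using key y P hP
    exact (abs_le_of_sq_le_sq' this (norm_nonneg _)).2
  let L : JT 𝕜 V →ₗ[𝕜] JT 𝕜 V :=
    { toFun := T
      map_add' := fun x y => JT.ext fun v => by
        simp only [hT, map_add]; split_ifs <;> simp
      map_smul' := fun c x => JT.ext fun v => by
        simp only [hT, map_smul, RingHom.id_apply]; split_ifs <;> simp }
  exact ⟨L.mkContinuous 1 fun y => by rw [one_mul]; exact hn y, hT, hn⟩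

/-- restriction to an order-convex set -/
noncomputable def proj (A : Set V) : JT 𝕜 V →L[𝕜] JT 𝕜 V :=
  if h : A.OrdConnected then (exists_proj h).choose else 0

lemma co_proj {A : Set V} (hA : A.OrdConnected) (y : JT 𝕜 V) (v : V) :
    co v (proj A y) = if v ∈ A then co v y else 0 := by
  rw [proj, dif_pos hA]; exact (exists_proj hA).choose_spec.1 y v

lemma co_proj_mem {A : Set V} (hA : A.OrdConnected) (y : JT 𝕜 V) {v : V} (hv : v ∈ A) :
    co v (proj A y) = co v y := by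
  rw [co_proj hA, if_pos hv]

lemma co_proj_notMem {A : Set V} (hA : A.OrdConnected) (y : JT 𝕜 V) {v : V} (hv : v ∉ A) :
    co v (proj A y) = 0 := by
  rw [co_proj hA, if_neg hv]

lemma norm_proj_le (A : Set V) (y : JT 𝕜 V) : ‖proj A y‖ ≤ ‖y‖ := by
  rw [proj]
  split_ifs with h
  · exact (exists_proj h).choose_spec.2 y
  · simp

lemma sg_proj {A : Set V} (hA : A.OrdConnected) (y : JT 𝕜 V) (s : Finset V) :
    sg s (proj A y) = sg (fl A s) y := by
  simp [sg_apply, co_proj hA, fl, Finset.sum_filter]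

lemma exists_e (𝕜 : Type) [RCLike 𝕜] (v : V) :
    ∃ x : JT 𝕜 V, (∀ w, co w x = if w = v then 1 else 0) ∧ ‖x‖ ≤ 1 := by
  have key : ∀ P : Finset (Finset V), Adm P →
      ∑ s ∈ P, ‖∑ w ∈ s, (if w = v then (1 : 𝕜) else 0)‖ ^ 2 ≤ 1 := by
    intro P hP
    have h1 : ∀ s ∈ P, ‖∑ w ∈ s, (if w = v then (1 : 𝕜) else 0)‖ ^ 2 =
        if v ∈ s then 1 else 0 := by
      intro s _
      rw [Finset.sum_ite_eq']
      split_ifs <;> simp
    rw [Finset.sum_congr rfl h1, Finset.sum_boole]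
    norm_cast
    rw [Finset.card_le_one]
    intro s hs t ht
    rw [Finset.mem_filter] at hs ht
    by_contra h
    exact Finset.disjoint_left.1 (hP.2 s hs.1 t ht.1 h) hs.2 ht.2
  obtain ⟨x, hx⟩ := exists_mk _ _ key
  refine ⟨x, hx, ?_⟩
  have := norm_sq_le x (C := 1 ^ 2) fun P hP => by
    simpa only [sg_apply, hx, one_pow] using key P hP
  exact (abs_le_of_sq_le_sq' this zero_le_one).2

/-- unit vectors -/
noncomputable def e (𝕜 : Type) [RCLike 𝕜] (v : V) : JT 𝕜 V := (exists_e 𝕜 v).choose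

lemma co_e (w v : V) : co w (e 𝕜 v) = if w = v then 1 else 0 := (exists_e 𝕜 v).choose_spec.1 w

lemma norm_e_le (v : V) : ‖e 𝕜 v‖ ≤ 1 := (exists_e 𝕜 v).choose_spec.2

lemma eq_sum_e (y : JT 𝕜 V) (F : Finset V) (h : ∀ v, v ∉ F → co v y = 0) :
    y = ∑ v ∈ F, co v y • e 𝕜 v := by
  refine JT.ext fun w => ?_
  simp only [map_sum, map_smul, co_e, smul_eq_mul, mul_ite, mul_one, mul_zero]
  rw [Finset.sum_ite_eq]
  split_ifs with hw
  · rfl
  · exact h w hw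

/-- finitely supported vectors -/
def fs (𝕜 V : Type) [RCLike 𝕜] [Forest V] : Submodule 𝕜 (JT 𝕜 V) where
  carrier := {y | ∃ F : Finset V, ∀ v, v ∉ F → co v y = 0}
  add_mem' := by
    rintro x y ⟨F, hF⟩ ⟨G, hG⟩
    refine ⟨F ∪ G, fun v hv => ?_⟩
    rw [Finset.mem_union, not_or] at hv
    simp [hF v hv.1, hG v hv.2]
  zero_mem' := ⟨∅, by simp⟩
  smul_mem' := by
    rintro c x ⟨F, hF⟩
    exact ⟨F, fun v hv => by simp [hF v hv]⟩

lemma e_mem_fs (v : V) : e 𝕜 v ∈ fs 𝕜 V := ⟨{v}, fun w hw => by simpa [co_e] using hw⟩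

lemma proj_mem_fs {A : Set V} (hA : A.OrdConnected) {y : JT 𝕜 V} (hy : y ∈ fs 𝕜 V) :
    proj A y ∈ fs 𝕜 V := by
  obtain ⟨F, hF⟩ := hy
  exact ⟨F, fun v hv => by simp [co_proj hA, hF v hv]⟩

noncomputable def ic (t : V) : Finset V := (Forest.fin_Iic t).toFinset

@[simp] lemma mem_ic {v t : V} : v ∈ ic t ↔ v ≤ t := by simp [ic]

lemma isSeg_ic (t : V) : IsSeg (ic t) :=
  ⟨fun a ha b hb => Forest.chain a b t (mem_ic.1 ha) (mem_ic.1 hb),
    fun _ _ _ hc _ _ h => mem_ic.2 (h.trans (mem_ic.1 hc))⟩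

lemma exists_lower (F : Finset V) : ∃ G : Finset V, F ⊆ G ∧ IsLowerSet (G : Set V) := by
  refine ⟨F.biUnion ic, fun v hv => Finset.mem_biUnion.2 ⟨v, hv, mem_ic.2 le_rfl⟩, ?_⟩
  intro a b hba ha
  simp only [Finset.coe_biUnion, Set.mem_iUnion, Finset.mem_coe, mem_ic] at *
  obtain ⟨i, hi, h⟩ := ha
  exact ⟨i, hi, hba.trans h⟩

lemma proj_add_compl {A : Set V} (hA : IsLowerSet A) (y : JT 𝕜 V) :
    proj A y + proj Aᶜ y = y := by
  refine JT.ext fun v => ?_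
  rw [map_add, co_proj hA.ordConnected, co_proj hA.compl.ordConnected]
  by_cases h : v ∈ A <;> simp [h]

lemma exists_tail_small (y : JT 𝕜 V) {ε : ℝ} (hε : 0 < ε) :
    ∃ F : Finset V, ∀ A : Set V, IsLowerSet A → (F : Set V) ⊆ A → ‖proj Aᶜ y‖ ≤ ε := by
  have : ∃ P, Adm P ∧ ‖y‖ ^ 2 - ε ^ 2 < ∑ s ∈ P, ‖sg s y‖ ^ 2 := by
    by_contra h
    push Not at h
    have := norm_sq_le y h
    nlinarith
  obtain ⟨P, hP, hPy⟩ := this
  refine ⟨P.biUnion id, fun A hA hFA => ?_⟩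
  have hc := hA.compl.ordConnected
  have : ‖proj Aᶜ y‖ ^ 2 ≤ ε ^ 2 := by
    refine norm_sq_le _ fun Q hQ => ?_
    have := sum_sg_le (P.disjSum Q) (Sum.elim id fun s => fl Aᶜ s) ?_ ?_ y
    · rw [Finset.sum_disjSum] at this
      simp only [Sum.elim_inl, id, Sum.elim_inr] at this
      simp only [sg_proj hc]
      linarith
    · rintro (s | s) hs
      · exact hP.1 s (by simpa using hs)
      · exact (hQ.1 s (by simpa using hs)).filter hc
    · have hx : ∀ s ∈ P, ∀ t : Finset V, Disjoint s (fl Aᶜ t) := by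
        intro s hs t
        rw [Finset.disjoint_left]
        intro v hv hv'
        exact (mem_fl.1 hv').2
          (hFA (Finset.mem_coe.2 (Finset.mem_biUnion.2 ⟨s, hs, hv⟩)))
      rintro (s | s) hs (t | t) ht hst
      · exact hP.2 s (by simpa using hs) t (by simpa using ht) (by simpa using hst)
      · exact hx s (by simpa using hs) t
      · exact (hx t (by simpa using ht) s).symm
      · exact disjoint_fl
          (hQ.2 s (by simpa using hs) t (by simpa using ht) (by simpa using hst))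
  exact (abs_le_of_sq_le_sq' this hε.le).2

lemma dense_fs : Dense (fs 𝕜 V : Set (JT 𝕜 V)) := by
  intro y
  rw [Metric.mem_closure_iff]
  intro ε hε
  obtain ⟨F, hF⟩ := exists_tail_small y (half_pos hε)
  obtain ⟨G, hFG, hG⟩ := exists_lower F
  refine ⟨proj G y, ⟨G, fun v hv => by simp [co_proj hG.ordConnected, hv]⟩, ?_⟩
  have := hF G hG (by exact_mod_cast hFG)
  rw [dist_eq_norm, ← eq_sub_of_add_eq' (proj_add_compl hG y)]
  linarith

lemma map_mem_of_e {W : Type} [NormedAddCommGroup W] [NormedSpace 𝕜 W] (T : JT 𝕜 V →L[𝕜] W)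
    (S : Submodule 𝕜 W) (h : ∀ v, T (e 𝕜 v) ∈ S) (y : JT 𝕜 V) : T y ∈ S.topologicalClosure := by
  have h1 : ∀ y ∈ fs 𝕜 V, T y ∈ S := by
    rintro y ⟨F, hF⟩
    rw [eq_sum_e y F hF, map_sum]
    exact S.sum_mem fun v _ => by rw [map_smul]; exact S.smul_mem _ (h v)
  exact map_mem_closure T.continuous (dense_fs y) h1

lemma norm_add_sq_le (x y : JT 𝕜 V) {D : ℝ}
    (h : ∀ P, Adm P → ∑ s ∈ P, 2 * (‖sg s x‖ * ‖sg s y‖) ≤ D) :
    ‖x + y‖ ^ 2 ≤ ‖x‖ ^ 2 + ‖y‖ ^ 2 + D := by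
  refine norm_sq_le _ fun P hP => ?_
  have := sum_sq_add_le P (fun s => sg s x) (fun s => sg s y)
  simp only [map_add]
  linarith [adm_le hP x, adm_le hP y, h P hP]

lemma norm_sum_sq_le (I : Finset ι) (x : ι → JT 𝕜 V)
    (h : ∀ s, IsSeg s → ∀ i ∈ I, ∀ j ∈ I, i ≠ j → sg s (x i) = 0 ∨ sg s (x j) = 0) :
    ‖∑ i ∈ I, x i‖ ^ 2 ≤ ∑ i ∈ I, ‖x i‖ ^ 2 := by
  induction I using Finset.induction_on with
  | empty => simp
  | insert a I ha ih =>
    rw [Finset.sum_insert ha, Finset.sum_insert ha]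
    have h1 := ih fun s hs i hi j hj =>
      h s hs i (Finset.mem_insert_of_mem hi) j (Finset.mem_insert_of_mem hj)
    have h2 := norm_add_sq_le (x a) (∑ i ∈ I, x i) (D := 0) fun P hP => by
      refine le_of_eq (Finset.sum_eq_zero fun s hs => ?_)
      by_cases h0 : sg s (x a) = 0
      · simp [h0]
      · have : sg s (∑ i ∈ I, x i) = 0 := by
          rw [map_sum]
          refine Finset.sum_eq_zero fun i hi => ?_
          exact (h s (hP.1 s hs) a (Finset.mem_insert_self _ _) i (Finset.mem_insert_of_mem hi)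
            (fun h => ha (h ▸ hi))).resolve_left h0
        simp [this]
    linarith

lemma norm_sum_cones (I : Finset ι) (t : ι → V) (x : ι → JT 𝕜 V)
    (ht : ∀ i ∈ I, ∀ j ∈ I, i ≠ j → ¬ t i ≤ t j)
    (hx : ∀ i ∈ I, ∀ v, co v (x i) ≠ 0 → t i ≤ v) :
    ‖∑ i ∈ I, x i‖ ^ 2 ≤ ∑ i ∈ I, ‖x i‖ ^ 2 := by
  refine norm_sum_sq_le I x fun s hs i hi j hj hij => ?_
  by_contra h
  rw [not_or, sg_apply, sg_apply] at h
  obtain ⟨a, ha, ha'⟩ := Finset.exists_ne_zero_of_sum_ne_zero h.1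
  obtain ⟨b, hb, hb'⟩ := Finset.exists_ne_zero_of_sum_ne_zero h.2
  have h1 := hx i hi a ha'
  have h2 := hx j hj b hb'
  have h3 : t i ≤ t j ∨ t j ≤ t i := by
    rcases hs.1 a ha b hb with h | h
    · exact Forest.chain _ _ b (h1.trans h) h2
    · exact Forest.chain _ _ a h1 (h2.trans h)
  rcases h3 with h | h
  · exact ht i hi j hj hij h
  · exact ht j hj i hi hij.symm h

lemma upL2_e (t : ι → V) (ht : ∀ i j, i ≠ j → ¬ t i ≤ t j) : UpL2 𝕜 (fun i => e 𝕜 (t i)) := by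
  intro I a
  refine (norm_sum_cones I t _ (fun i _ j _ => ht i j) fun i _ v hv => ?_).trans ?_
  · by_contra h
    apply hv
    have : v ≠ t i := fun h' => h (h' ▸ le_rfl)
    simp [co_e, this]
  · refine Finset.sum_le_sum fun i _ => ?_
    gcongr
    rw [norm_smul]
    exact mul_le_of_le_one_right (norm_nonneg _) (norm_e_le _)

/-- height -/
noncomputable def ht (v : V) : ℕ := (ic v).card

lemma eq_of_le_of_ht {a b : V} (h : a ≤ b) (h' : ht a = ht b) : a = b := by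
  have h1 : ic a ⊆ ic b := fun v hv => mem_ic.2 ((mem_ic.1 hv).trans h)
  have h2 := Finset.eq_of_subset_of_card_le h1 h'.ge
  have : b ∈ ic a := h2 ▸ mem_ic.2 le_rfl
  exact le_antisymm h (mem_ic.1 this)

lemma tendsto_weighted (f : StrongDual 𝕜 (JT 𝕜 V)) :
    Tendsto (fun v : V => ‖f (e 𝕜 v)‖ / ((ht v : ℝ) + 1)) cofinite (𝓝 0) := by
  rw [Metric.tendsto_nhds]
  intro ε hε
  rw [eventually_cofinite]
  obtain ⟨N, hN⟩ := exists_nat_gt (‖f‖ / ε)
  have hlev : ∀ k : ℕ, {v : V | ht v = k ∧ ε ≤ ‖f (e 𝕜 v)‖}.Finite := by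
    intro k
    have h1 := (upL2_e (𝕜 := 𝕜) (fun v : {v : V // ht v = k} => v.1) fun i j hij h =>
      hij (Subtype.ext (eq_of_le_of_ht h (i.2.trans j.2.symm)))).tendsto f
    rw [Metric.tendsto_nhds] at h1
    have h2 := eventually_cofinite.1 (h1 ε hε)
    refine (h2.image Subtype.val).subset ?_
    rintro v ⟨hv, hv'⟩
    exact ⟨⟨v, hv⟩, by simpa using hv', rfl⟩
  refine ((Finset.range N).finite_toSet.biUnion fun k _ => hlev k).subset ?_
  intro v hv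
  have hp : (0 : ℝ) < (ht v : ℝ) + 1 := by positivity
  simp only [dist_zero_right, norm_div, not_lt, Set.mem_ofPred_eq, Real.norm_eq_abs,
    abs_of_pos hp, abs_norm] at hv
  rw [le_div_iff₀ hp] at hv
  have hb : ‖f (e 𝕜 v)‖ ≤ ‖f‖ :=
    (f.le_opNorm _).trans (mul_le_of_le_one_right (norm_nonneg _) (norm_e_le _))
  simp only [Set.mem_iUnion, Finset.coe_range, Set.mem_Iio, Set.mem_ofPred_eq]
  refine ⟨ht v, ?_, rfl, ?_⟩
  · rw [div_lt_iff₀ hε] at hN
    have : (ht v : ℝ) < N := by nlinarith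
    exact_mod_cast this
  · have : (0 : ℝ) ≤ ht v := by positivity
    nlinarith

end Pool.Agent.Lib.MP_064b94_an
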