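import Pool.Agent.Lib.MP_064b94_an.Defs

open Filter Topology

namespace Pool.Agent.Lib.MP_064b94_an

variable {𝕜 : Type} [RCLike 𝕜] {E F : Type} [NormedAddCommGroup E] [NormedSpace 𝕜 E]
  [NormedAddCommGroup F] [NormedSpace 𝕜 F] {ι : Type}

/-- upper ell-two estimate with constant one -/
def UpL2 (𝕜 : Type) [RCLike 𝕜] {E : Type} [NormedAddCommGroup E] [NormedSpace 𝕜 E] {ι : Type}
    (w : ι → E) : Prop :=
  ∀ (I : Finset ι) (a : ι → 𝕜), ‖∑ i ∈ I, a i • w i‖ ^ 2 ≤ ∑ i ∈ I, ‖a i‖ ^ 2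

lemma UpL2.dual {w : ι → E} (h : UpL2 𝕜 w) (f : StrongDual 𝕜 E) (I : Finset ι) :
    ∑ i ∈ I, ‖f (w i)‖ ^ 2 ≤ ‖f‖ ^ 2 := by
  set S : ℝ := ∑ i ∈ I, ‖f (w i)‖ ^ 2 with hS
  have hS0 : 0 ≤ S := Finset.sum_nonneg fun _ _ => by positivity
  set x : E := ∑ i ∈ I, (starRingEnd 𝕜 (f (w i))) • w i with hx
  have h1 : f x = (S : 𝕜) := by
    rw [hx, map_sum, hS]
    push_cast
    refine Finset.sum_congr rfl fun i _ => ?_
    rw [map_smul, smul_eq_mul, RCLike.conj_mul]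
  have h2 : ‖x‖ ^ 2 ≤ S := by
    have := h I (fun i => starRingEnd 𝕜 (f (w i)))
    simpa [hx, hS] using this
  have h3 : S ≤ ‖f‖ * ‖x‖ := by
    have := f.le_opNorm x
    rw [h1, RCLike.norm_ofReal, abs_of_nonneg hS0] at this
    exact this
  have h4 : S ^ 2 ≤ ‖f‖ ^ 2 * S := by
    calc S ^ 2 ≤ (‖f‖ * ‖x‖) ^ 2 := by gcongr
      _ = ‖f‖ ^ 2 * ‖x‖ ^ 2 := by ring
      _ ≤ ‖f‖ ^ 2 * S := by gcongr
  rcases hS0.eq_or_lt with h0 | h0
  · rw [← h0]; positivity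
  · nlinarith

lemma UpL2.of_dual (g : ι → StrongDual 𝕜 E)
    (h : ∀ (y : E) (I : Finset ι), ∑ i ∈ I, ‖g i y‖ ^ 2 ≤ ‖y‖ ^ 2) : UpL2 𝕜 g := by
  intro I a
  have h0 : 0 ≤ ∑ i ∈ I, ‖a i‖ ^ 2 := Finset.sum_nonneg fun _ _ => by positivity
  have : ‖∑ i ∈ I, a i • g i‖ ≤ √(∑ i ∈ I, ‖a i‖ ^ 2) := by
    refine ContinuousLinearMap.opNorm_le_bound _ (Real.sqrt_nonneg _) fun y => ?_
    rw [sum_apply]
    calc ‖∑ i ∈ I, (a i • g i) y‖ ≤ ∑ i ∈ I, ‖a i‖ * ‖g i y‖ := by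
          refine (norm_sum_le _ _).trans (le_of_eq ?_)
          refine Finset.sum_congr rfl fun i _ => ?_
          simp
      _ ≤ √(∑ i ∈ I, ‖a i‖ ^ 2) * √(∑ i ∈ I, ‖g i y‖ ^ 2) := Real.sum_mul_le_sqrt_mul_sqrt _ _ _
      _ ≤ √(∑ i ∈ I, ‖a i‖ ^ 2) * ‖y‖ := by
          gcongr
          exact Real.sqrt_le_iff.2 ⟨norm_nonneg _, h y I⟩
  calc ‖∑ i ∈ I, a i • g i‖ ^ 2 ≤ (√(∑ i ∈ I, ‖a i‖ ^ 2)) ^ 2 := by gcongr
    _ = _ := Real.sq_sqrt h0

lemma sum_sq_le_of_dense (g : ι → StrongDual 𝕜 E) {D : Set E} (hD : Dense D) (I : Finset ι)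
    (h : ∀ y ∈ D, ∑ i ∈ I, ‖g i y‖ ^ 2 ≤ ‖y‖ ^ 2) (y : E) :
    ∑ i ∈ I, ‖g i y‖ ^ 2 ≤ ‖y‖ ^ 2 := by
  have hc : IsClosed {y : E | ∑ i ∈ I, ‖g i y‖ ^ 2 ≤ ‖y‖ ^ 2} :=
    isClosed_le (by fun_prop) (by fun_prop)
  exact hc.closure_subset_iff.2 h (hD y)

lemma UpL2.comp {w : ι → E} (h : UpL2 𝕜 w) {κ : Type} (φ : κ → ι) (hφ : Function.Injective φ) :
    UpL2 𝕜 (fun k => w (φ k)) := by
  classical
  intro I a
  have := h (I.map ⟨φ, hφ⟩) (Function.extend φ a 0)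
  simpa [Finset.sum_map, hφ.extend_apply] using this

lemma summable_sq_of_le {c : ι → 𝕜} {C : ℝ} (h : ∀ I : Finset ι, ∑ i ∈ I, ‖c i‖ ^ 2 ≤ C) :
    Summable (fun i => ‖c i‖ ^ 2) :=
  summable_of_sum_le (fun _ => by positivity) h

lemma tendsto_zero_of_summable_sq {c : ι → 𝕜} (h : Summable (fun i => ‖c i‖ ^ 2)) :
    Tendsto c cofinite (𝓝 0) := by
  have h1 := h.tendsto_cofinite_zero
  rw [tendsto_zero_iff_norm_tendsto_zero]
  have h2 := (Real.continuous_sqrt.tendsto 0).comp h1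
  simpa [Function.comp_def] using h2

lemma UpL2.tendsto {w : ι → E} (h : UpL2 𝕜 w) (f : StrongDual 𝕜 E) :
    Tendsto (fun i => f (w i)) cofinite (𝓝 0) :=
  tendsto_zero_of_summable_sq (summable_sq_of_le (h.dual f))

lemma UpL2.summable [CompleteSpace E] {w : ι → E} (h : UpL2 𝕜 w) {a : ι → 𝕜}
    (ha : Summable (fun i => ‖a i‖ ^ 2)) : Summable (fun i => a i • w i) := by
  rw [summable_iff_vanishing_norm] at ha ⊢
  intro ε hε
  obtain ⟨s, hs⟩ := ha (ε ^ 2) (by positivity)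
  refine ⟨s, fun t ht => ?_⟩
  have h1 := hs t ht
  have h2 := h t a
  have h3 : ∑ i ∈ t, ‖a i‖ ^ 2 < ε ^ 2 := lt_of_le_of_lt (le_abs_self _) h1
  exact lt_of_pow_lt_pow_left₀ 2 hε.le (lt_of_le_of_lt h2 h3)

lemma UpL2.norm_le_of_hasSum {w : ι → E} (h : UpL2 𝕜 w) {a : ι → 𝕜} {x : E} {C : ℝ} (hC : 0 ≤ C)
    (hx : HasSum (fun i => a i • w i) x) (ha : ∀ I : Finset ι, ∑ i ∈ I, ‖a i‖ ^ 2 ≤ C ^ 2) :
    ‖x‖ ≤ C := by
  refine le_of_tendsto' (hx.norm) fun I => ?_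
  exact (abs_le_of_sq_le_sq' ((h I a).trans (ha I)) hC).2

lemma exists_op [CompleteSpace F] {w : ι → F} (hw : UpL2 𝕜 w) (g : ι → StrongDual 𝕜 E)
    (hg : ∀ (y : E) (I : Finset ι), ∑ i ∈ I, ‖g i y‖ ^ 2 ≤ ‖y‖ ^ 2) :
    ∃ T : E →L[𝕜] F, ∀ y, HasSum (fun i => g i y • w i) (T y) := by
  have hs : ∀ y, Summable (fun i => g i y • w i) := fun y =>
    hw.summable (summable_sq_of_le (hg y))
  let L : E →ₗ[𝕜] F :=
    { toFun := fun y => ∑' i, g i y • w i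
      map_add' := fun x y => by
        simp only [map_add, add_smul]
        exact (hs x).tsum_add (hs y)
      map_smul' := fun c x => by
        simp only [map_smul, smul_eq_mul, mul_smul, RingHom.id_apply]
        exact (hs x).tsum_const_smul c }
  refine ⟨L.mkContinuous 1 fun y => ?_, fun y => (hs y).hasSum⟩
  rw [one_mul]
  exact hw.norm_le_of_hasSum (norm_nonneg _) (hs y).hasSum (hg y)

lemma exists_ulim (U : Ultrafilter ι) (g : ι → StrongDual 𝕜 E) (C : ℝ) (hC : 0 ≤ C)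
    (h : ∀ i, ‖g i‖ ≤ C) :
    ∃ G : StrongDual 𝕜 E, ‖G‖ ≤ C ∧ ∀ y, Tendsto (fun i => g i y) U (𝓝 (G y)) := by
  have : ProperSpace 𝕜 := FiniteDimensional.proper_rclike 𝕜 𝕜
  have hb : ∀ i y, ‖g i y‖ ≤ C * ‖y‖ := fun i y => (g i).le_of_opNorm_le (h i) y
  have h1 : ∀ y, ∃ a, Tendsto (fun i => g i y) U (𝓝 a) := fun y => by
    obtain ⟨a, -, ha⟩ := (isCompact_closedBall (0 : 𝕜) (C * ‖y‖)).ultrafilter_le_nhds
      (U.map fun i => g i y) (by
        rw [Ultrafilter.coe_map, le_principal_iff, mem_map]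
        exact Eventually.of_forall fun i => by simpa using hb i y)
    exact ⟨a, ha⟩
  choose G hG using h1
  let L : E →ₗ[𝕜] 𝕜 := linearMapOfTendsto G (fun i => (g i : E →ₗ[𝕜] 𝕜)) (l := (U : Filter ι))
    (tendsto_pi_nhds.2 hG)
  have hL : ∀ y, ‖L y‖ ≤ C * ‖y‖ := fun y =>
    le_of_tendsto' (hG y).norm fun i => hb i y
  exact ⟨L.mkContinuous C hL, L.mkContinuous_norm_le hC hL, hG⟩

lemma exists_weak_limit {K : Set E} (hK : IsCompact (toWeakSpace 𝕜 E '' K)) (U : Ultrafilter ι)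
    (x : ι → E) (hx : ∀ i, x i ∈ K) :
    ∃ z ∈ K, ∀ g : StrongDual 𝕜 E, Tendsto (fun i => g (x i)) U (𝓝 (g z)) := by
  obtain ⟨a, ⟨z, hz, rfl⟩, ha⟩ := hK.ultrafilter_le_nhds (U.map fun i => toWeakSpace 𝕜 E (x i)) (by
    rw [Ultrafilter.coe_map, le_principal_iff, mem_map]
    exact Eventually.of_forall fun i => ⟨x i, hx i, rfl⟩)
  refine ⟨z, hz, fun g => ?_⟩
  have hc : Continuous fun x : WeakSpace 𝕜 E => (topDualPairing 𝕜 E).flip x g :=
    WeakBilin.eval_continuous _ g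
  exact (hc.tendsto _).comp ha

lemma isCompact_of_weakly_null (w : ι → E)
    (h : ∀ g : StrongDual 𝕜 E, Tendsto (fun i => g (w i)) cofinite (𝓝 0)) :
    IsCompact (toWeakSpace 𝕜 E '' insert 0 (Set.range w)) := by
  rw [Set.image_insert_eq, ← Set.range_comp]
  refine Tendsto.isCompact_insert_range_of_cofinite ?_
  have hi : IsInducing fun (x : WeakSpace 𝕜 E) y => (topDualPairing 𝕜 E).flip x y := ⟨rfl⟩
  rw [hi.tendsto_nhds_iff, tendsto_pi_nhds]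
  intro g
  have := h g
  rw [← map_zero g] at this
  exact this

lemma exists_ext (J : E →ₗᵢ[𝕜] F) (g : StrongDual 𝕜 E) :
    ∃ G : StrongDual 𝕜 F, (∀ x, G (J x) = g x) ∧ ‖G‖ ≤ ‖g‖ := by
  let e := J.equivRange
  obtain ⟨G, hG, hn⟩ := exists_extension_norm_eq (LinearMap.range J.toLinearMap)
    (g.comp e.symm.toContinuousLinearEquiv.toContinuousLinearMap)
  refine ⟨G, fun x => ?_, ?_⟩
  · have := hG (e x)
    simp only [ContinuousLinearMap.comp_apply, ContinuousLinearEquiv.coe_coe,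
      LinearIsometryEquiv.coe_toContinuousLinearEquiv, LinearIsometryEquiv.symm_apply_apply] at this
    rw [← this]; rfl
  · rw [hn]
    refine ContinuousLinearMap.opNorm_le_bound _ (norm_nonneg g) fun x => ?_
    have := g.le_opNorm (e.symm x)
    rw [LinearIsometryEquiv.norm_map] at this
    exact this

lemma wcg_of_family (J : E →ₗᵢ[𝕜] F) (w : ι → F) (hw : ∀ i, ∃ z, J z = w i)
    (null : ∀ g : StrongDual 𝕜 F, Tendsto (fun i => g (w i)) cofinite (𝓝 0))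
    (dense : ∀ z, J z ∈ (Submodule.span 𝕜 (Set.range w)).topologicalClosure) : WCG 𝕜 E := by
  choose z hz using hw
  refine ⟨insert 0 (Set.range z), isCompact_of_weakly_null z fun g => ?_, ?_⟩
  · obtain ⟨G, hG, -⟩ := exists_ext J g
    have : ∀ i, g (z i) = G (w i) := fun i => by rw [← hz i, hG]
    simpa only [this] using null G
  · rw [Submodule.span_insert_zero, eq_top_iff]
    intro x _
    have h1 := dense x
    have h2 : Submodule.span 𝕜 (Set.range w) =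
        (Submodule.span 𝕜 (Set.range z)).map J.toLinearMap := by
      rw [Submodule.map_span, ← Set.range_comp]
      congr 2
      funext i
      exact (hz i).symm
    rw [h2] at h1
    change J x ∈ closure (J '' (Submodule.span 𝕜 (Set.range z) : Set E)) at h1
    change x ∈ closure (Submodule.span 𝕜 (Set.range z) : Set E)
    rw [J.isometry.isEmbedding.isInducing.closure_eq_preimage_closure_image]
    exact h1

/-- transpose -/
noncomputable def tr (T : E →L[𝕜] F) : StrongDual 𝕜 F →L[𝕜] StrongDual 𝕜 E :=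
  (ContinuousLinearMap.compL 𝕜 E F 𝕜).flip T

@[simp] lemma tr_apply (T : E →L[𝕜] F) (f : StrongDual 𝕜 F) (x : E) : tr T f x = f (T x) := rfl

lemma norm_tr_tr (J : E →ₗᵢ[𝕜] F) (ξ : StrongDual 𝕜 (StrongDual 𝕜 E)) :
    ‖tr (tr J.toContinuousLinearMap) ξ‖ = ‖ξ‖ := by
  refine le_antisymm ?_ ?_
  · refine ContinuousLinearMap.opNorm_le_bound _ (norm_nonneg ξ) fun f => ?_
    refine (ξ.le_opNorm _).trans ?_
    gcongr
    refine ContinuousLinearMap.opNorm_le_bound _ (norm_nonneg f) fun x => ?_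
    have := f.le_opNorm (J x)
    rw [J.norm_map] at this
    exact this
  · refine ContinuousLinearMap.opNorm_le_bound _
      (norm_nonneg (tr (tr J.toContinuousLinearMap) ξ)) fun g => ?_
    obtain ⟨G, hG, hn⟩ := exists_ext J g
    have : tr J.toContinuousLinearMap G = g := by ext x; exact hG x
    calc ‖ξ g‖ = ‖tr (tr J.toContinuousLinearMap) ξ G‖ := by rw [tr_apply, this]
      _ ≤ ‖tr (tr J.toContinuousLinearMap) ξ‖ * ‖G‖ := ContinuousLinearMap.le_opNorm _ _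
      _ ≤ _ := by gcongr

/-- the bidual of a subspace embeds isometrically -/
noncomputable def bidualEmb (J : E →ₗᵢ[𝕜] F) :
    StrongDual 𝕜 (StrongDual 𝕜 E) →ₗᵢ[𝕜] StrongDual 𝕜 (StrongDual 𝕜 F) :=
  { toLinearMap := (tr (tr J.toContinuousLinearMap)).toLinearMap
    norm_map' := norm_tr_tr J }

lemma bidualEmb_apply (J : E →ₗᵢ[𝕜] F) (ξ : StrongDual 𝕜 (StrongDual 𝕜 E))
    (f : StrongDual 𝕜 F) : bidualEmb J ξ f = ξ (tr J.toContinuousLinearMap f) := rfl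

lemma exists_bidualEmb (J : E →ₗᵢ[𝕜] F) (ζ : StrongDual 𝕜 (StrongDual 𝕜 F))
    (h : ∀ f : StrongDual 𝕜 F, (∀ x, f (J x) = 0) → ζ f = 0) : ∃ ξ, bidualEmb J ξ = ζ := by
  choose ext hext hn using fun g : StrongDual 𝕜 E => exists_ext J g
  have key : ∀ (g : StrongDual 𝕜 E) (f : StrongDual 𝕜 F), (∀ x, f (J x) = g x) →
      ζ (ext g) = ζ f := fun g f hf => by
    rw [← sub_eq_zero, ← map_sub]
    refine h _ fun x => ?_
    simp [hext, hf]
  let L : StrongDual 𝕜 E →ₗ[𝕜] 𝕜 :=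
    { toFun := fun g => ζ (ext g)
      map_add' := fun g g' => by
        rw [← map_add]
        exact key _ _ fun x => by simp [hext]
      map_smul' := fun c g => by
        rw [RingHom.id_apply, ← map_smul]
        exact key _ _ fun x => by simp [hext] }
  refine ⟨L.mkContinuous ‖ζ‖ fun g => ?_, ?_⟩
  · exact (ζ.le_opNorm _).trans (by gcongr; exact hn g)
  · ext f
    exact key _ _ fun x => rfl

lemma exists_re_gt (f : StrongDual 𝕜 E) {r : ℝ} (hr : 0 ≤ r) (h : r < ‖f‖) {D : Submodule 𝕜 E}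
    (hD : Dense (D : Set E)) : ∃ x ∈ D, ‖x‖ ≤ 1 ∧ r < RCLike.re (f x) := by
  obtain ⟨x, hx, hfx⟩ := f.exists_lt_apply_of_lt_opNorm h
  have ho1 : IsOpen {x : E | ‖x‖ < 1} := isOpen_lt (by fun_prop) (by fun_prop)
  have ho2 : IsOpen {x : E | r < ‖f x‖} := isOpen_lt (by fun_prop) (by fun_prop)
  have ho := ho1.inter ho2
  obtain ⟨y, hy, hyD⟩ := hD.inter_open_nonempty _ ho ⟨x, hx, hfx⟩
  have hne : ‖f y‖ ≠ 0 := (lt_of_le_of_lt hr hy.2).ne'
  have hne' : ((‖f y‖ : ℝ) : 𝕜) ≠ 0 := by exact_mod_cast hne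
  refine ⟨(starRingEnd 𝕜 (f y) / (‖f y‖ : 𝕜)) • y, D.smul_mem _ hyD, ?_, ?_⟩
  · rw [norm_smul, norm_div, RCLike.norm_conj, RCLike.norm_ofReal, abs_norm, div_self hne, one_mul]
    exact hy.1.le
  · rw [map_smul, smul_eq_mul, div_mul_eq_mul_div, RCLike.conj_mul, sq, mul_div_assoc,
      div_self hne', mul_one, RCLike.ofReal_re]
    exact hy.2

lemma false_of_growth (f : StrongDual 𝕜 E) {δ C : ℝ} (hδ : 0 < δ)
    (h : ∀ N : ℕ, ∃ x : E, N * δ ≤ RCLike.re (f x) ∧ ‖x‖ ^ 2 ≤ C * N) : False := by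
  obtain ⟨N, hN⟩ := exists_nat_gt (‖f‖ ^ 2 * |C| / δ ^ 2)
  obtain ⟨x, h1, h2⟩ := h N
  have hN0 : (0 : ℝ) < N := lt_of_le_of_lt (by positivity) hN
  have h3 : N * δ ≤ ‖f‖ * ‖x‖ := h1.trans ((RCLike.re_le_norm _).trans (f.le_opNorm x))
  have h4 : (N * δ) ^ 2 ≤ ‖f‖ ^ 2 * (|C| * N) := by
    calc (N * δ) ^ 2 ≤ (‖f‖ * ‖x‖) ^ 2 := by gcongr
      _ = ‖f‖ ^ 2 * ‖x‖ ^ 2 := by ring
      _ ≤ ‖f‖ ^ 2 * (|C| * N) := by
        gcongr
        exact h2.trans (by gcongr; exact le_abs_self C)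
  rw [div_lt_iff₀ (by positivity)] at hN
  nlinarith

end Pool.Agent.Lib.MP_064b94_an
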