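import Pool.Agent.Lib.MP_064b94_an.Space

open Filter Topology Classical

namespace Pool.Agent.Lib.MP_064b94_an

variable {𝕜 : Type} [RCLike 𝕜]

def N.bas : N → G
  | .fib γ _ _ => γ
  | .tre _ γ => γ

def N.ind : N → ℕ
  | .fib _ _ n => n
  | .tre _ _ => 0

noncomputable def eta : M → ℝ
  | .inl j => al j * al j
  | .inr k => al k.1 * al k.1 * al k.2

lemma eta_pos (m : M) : 0 < eta m := by
  rcases m with j | k
  · exact mul_pos (al_pos _) (al_pos _)
  · exact mul_pos (mul_pos (al_pos _) (al_pos _)) (al_pos _)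

lemma small_zero {y : JT 𝕜 N} (hy : InX y) (γ : G) (h : ∀ m, ‖co (N.tre m γ) y‖ ≤ eta m)
    (i n : ℕ) : co (N.fib γ i n) y = 0 := by
  have h1 : ∀ j, ‖bs (ray (γ, j)) y‖ ≤ al j * al j := by
    intro j
    refine le_of_tendsto (bs_tendsto (ray (γ, j)) y).norm ?_
    filter_upwards [(ray (γ, j)).ev_mem] with t ht
    have hm : ∀ v ∈ ic t, ∃ k, N.fib γ j k = v := fun v hv => (ray (γ, j)).lower (mem_ic.1 hv) ht
    rw [sg_apply]
    calc _ ≤ ∑ v ∈ ic t, al j * al j * al v.ind := by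
          refine (norm_sum_le _ _).trans (Finset.sum_le_sum fun v hv => ?_)
          obtain ⟨k, rfl⟩ := hm v hv
          rw [← hy.1]
          exact h (.inr (j, k))
      _ = al j * al j * ∑ k ∈ (ic t).image N.ind, al k := by
          rw [Finset.sum_image, Finset.mul_sum]
          intro a ha b hb hab
          obtain ⟨k, rfl⟩ := hm a ha
          obtain ⟨l, rfl⟩ := hm b hb
          simp only [N.ind] at hab
          rw [hab]
      _ ≤ _ := mul_le_of_le_one_right (mul_pos (al_pos _) (al_pos _)).le (sum_al_le _)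
  have h2 : ∀ j, ‖co (N.fib γ (tau j).1 (tau j).2) y‖ ≤ 2 * al j := by
    intro j
    have a1 := hy.2 (γ, j)
    rw [Lam_apply] at a1
    have a2 : (al j : 𝕜) * co (N.fib γ (tau j).1 (tau j).2) y =
        bs (ray (γ, j)) y - co (N.tre (.inl j) γ) y := by linear_combination a1
    have a3 := congrArg norm a2
    rw [norm_mul, RCLike.norm_ofReal, abs_of_pos (al_pos j)] at a3
    have a4 := norm_sub_le (bs (ray (γ, j)) y) (co (N.tre (.inl j) γ) y)
    have a5 := h (.inl j)
    simp only [eta] at a5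
    have a6 := h1 j
    have a7 := al_pos j
    nlinarith
  have h3 : ∀ k, ‖co (N.fib γ i n) y‖ ≤ 2 * al k := by
    intro k
    have := h2 (Nat.pair (Nat.pair i n) k)
    simp only [tau, Nat.unpair_pair] at this
    have a := al_anti (Nat.right_le_pair (Nat.pair i n) k)
    linarith
  have h4 := ge_of_tendsto' (al_tendsto.const_mul 2) h3
  simpa using h4

lemma countable_over {A : Set G} (hA : A.Countable) : {v : N | v.bas ∈ A}.Countable := by
  have h1 : ((fun p : G × ℕ × ℕ => N.fib p.1 p.2.1 p.2.2) '' (A ×ˢ Set.univ)).Countable :=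
    (hA.prod Set.countable_univ).image _
  have h2 : ((fun p : G × M => N.tre p.2 p.1) '' (A ×ˢ Set.univ)).Countable :=
    (hA.prod Set.countable_univ).image _
  refine (h1.union h2).mono ?_
  rintro (⟨γ, i, n⟩ | ⟨m, γ⟩) h
  · exact Or.inl ⟨(γ, i, n), ⟨h, trivial⟩, rfl⟩
  · exact Or.inr ⟨(γ, m), ⟨h, trivial⟩, rfl⟩

variable {E : Type} [NormedAddCommGroup E] [NormedSpace 𝕜 E] (J : E →ₗᵢ[𝕜] JT 𝕜 N)

lemma exists_dense_step (K : Set E) {A : Set G} (hA : A.Countable) :
    ∃ B : Set G, B.Countable ∧ A ⊆ B ∧ ∀ x ∈ K, ∀ F : Finset N, (∀ v ∈ F, v.bas ∈ A) →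
      ∀ ε > 0, ∃ d ∈ K, (∀ v ∈ F, dist (co v (J d)) (co v (J x)) < ε) ∧
        ∀ v : N, v.bas ∉ B → co v (J d) = 0 := by
  have : ProperSpace 𝕜 := FiniteDimensional.proper_rclike 𝕜 𝕜
  have : Countable {v : N | v.bas ∈ A} := countable_over hA
  let ρ : E → ({v : N | v.bas ∈ A} → 𝕜) := fun x v => co v.1 (J x)
  obtain ⟨t, hts, htc, hst⟩ :=
    (TopologicalSpace.IsSeparable.of_separableSpace (ρ '' K)).exists_countable_dense_subset
  have h1 : ∀ p : t, ∃ d ∈ K, ρ d = p := fun p => hts p.2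
  choose d hd hρ using h1
  have : Countable t := htc
  refine ⟨A ∪ ⋃ p : t, N.bas '' {v | co v (J (d p)) ≠ 0}, hA.union (Set.countable_iUnion fun p =>
    (countable_supp _).image _), Set.subset_union_left, fun x hx F hF ε hε => ?_⟩
  have h2 : ∀ᶠ p in 𝓝 (ρ x), ∀ v ∈ F.attach, dist (p ⟨v.1, hF v.1 v.2⟩) (co v.1 (J x)) < ε :=
    (eventually_all_finset _).2 fun v _ =>
      Metric.tendsto_nhds.1 ((continuous_apply (⟨v.1, hF v.1 v.2⟩ : {v : N | v.bas ∈ A})).tendsto
        (ρ x)) ε hε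
  obtain ⟨p, hp, hpt⟩ := mem_closure_iff_nhds.1 (hst ⟨x, hx, rfl⟩) _ h2
  refine ⟨d ⟨p, hpt⟩, hd _, fun v hv => ?_, fun v hv => ?_⟩
  · have a1 := hp ⟨v, hv⟩ (Finset.mem_attach _ _)
    have a2 := congrFun (hρ ⟨p, hpt⟩) ⟨v, hF v hv⟩
    simp only [ρ] at a2
    rw [a2]
    exact a1
  · by_contra hc
    exact hv (Or.inr (Set.mem_iUnion.2 ⟨⟨p, hpt⟩, v, hc, rfl⟩))

lemma exists_closed {K : Set E} (hK : IsCompact (toWeakSpace 𝕜 E '' K)) {C : Set G}
    (hC : C.Countable) : ∃ A : Set G, A.Countable ∧ C ⊆ A ∧ ∀ x ∈ K, ∃ x' ∈ K,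
      (∀ v : N, v.bas ∈ A → co v (J x') = co v (J x)) ∧
        ∀ v : N, v.bas ∉ A → co v (J x') = 0 := by
  choose B hB1 hB2 hB3 using fun A : {A : Set G // A.Countable} => exists_dense_step J K A.2
  let S : ℕ → {A : Set G // A.Countable} := fun n =>
    Nat.rec ⟨insert G.root C, hC.insert _⟩ (fun _ A => ⟨B A, hB1 A⟩) n
  have hS : ∀ n, (S (n + 1)).1 = B (S n) := fun n => rfl
  have hmono : Monotone fun n => (S n).1 :=
    monotone_nat_of_le_succ fun n => by rw [hS]; exact hB2 _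
  have hAc : (⋃ n, (S n).1).Countable := Set.countable_iUnion fun n => (S n).2
  refine ⟨⋃ n, (S n).1, hAc, fun γ hγ => Set.mem_iUnion.2 ⟨0, Or.inr hγ⟩, fun x hx => ?_⟩
  obtain ⟨u, hu⟩ := (countable_over hAc).exists_eq_range
    ⟨N.fib G.root 0 0, Set.mem_iUnion.2 ⟨0, Or.inl rfl⟩⟩
  have h1 : ∀ k, ∃ n, (u k).bas ∈ (S n).1 := fun k => by
    have : u k ∈ {v : N | v.bas ∈ ⋃ n, (S n).1} := hu ▸ Set.mem_range_self k
    exact Set.mem_iUnion.1 this
  choose nn hnn using h1
  have h2 : ∀ k : ℕ, ∃ d ∈ K, (∀ j < k, dist (co (u j) (J d)) (co (u j) (J x)) < 1 / ((k : ℝ) + 1)) ∧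
      ∀ v : N, v.bas ∉ ⋃ n, (S n).1 → co v (J d) = 0 := by
    intro k
    obtain ⟨d, hd, a1, a2⟩ := hB3 (S ((Finset.range k).sup nn)) x hx ((Finset.range k).image u)
      (fun v hv => by
        obtain ⟨j, hj, rfl⟩ := Finset.mem_image.1 hv
        exact hmono (Finset.le_sup (f := nn) hj) (hnn j)) (1 / ((k : ℝ) + 1)) (by positivity)
    refine ⟨d, hd, fun j hj => a1 _ (Finset.mem_image_of_mem _ (Finset.mem_range.2 hj)),
      fun v hv => a2 v fun h => hv (Set.mem_iUnion.2 ⟨(Finset.range k).sup nn + 1, h⟩)⟩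
  choose d hd hd1 hd2 using h2
  obtain ⟨z, hz, hlim⟩ := exists_weak_limit hK (hyperfilter ℕ) d hd
  have hU : (hyperfilter ℕ : Filter ℕ) ≤ atTop := Nat.hyperfilter_le_atTop
  refine ⟨z, hz, fun v hv => ?_, fun v hv => ?_⟩
  · have : v ∈ Set.range u := hu ▸ hv
    obtain ⟨j, rfl⟩ := this
    refine tendsto_nhds_unique (hlim (tr J.toContinuousLinearMap (co (u j)))) (Tendsto.mono_left ?_ hU)
    refine tendsto_iff_dist_tendsto_zero.2 (squeeze_zero' (Eventually.of_forall fun _ => dist_nonneg)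
      ?_ tendsto_one_div_add_atTop_nhds_zero_nat)
    filter_upwards [eventually_gt_atTop j] with k hk
    exact (hd1 k j hk).le
  · refine tendsto_nhds_unique (hlim (tr J.toContinuousLinearMap (co v))) ?_
    exact tendsto_const_nhds.congr fun k => (hd2 k v hv).symm

lemma exists_stop {K : Set E} (hK : IsCompact (toWeakSpace 𝕜 E '' K)) (m : M) {η : ℝ}
    (hη : 0 < η) : ∃ (t : G) (C : Set G), C.Countable ∧ ∀ p l, p m = t → G.node p l ∉ C →
      ∀ x ∈ K, ∀ x' ∈ K, (∀ v : N, v.bas ∈ C → co v (J (x - x')) = 0) →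
        ‖co (N.tre m (G.node p l)) (J (x - x'))‖ ≤ η := by
  by_contra hc
  push Not at hc
  choose p l hp hn x hx x' hx' hv hl using
    fun s : G × {C : Set G // C.Countable} => hc s.1 s.2.1 s.2.2
  let nx : G × {C : Set G // C.Countable} → G × {C : Set G // C.Countable} := fun s =>
    (G.node (p s) (l s), ⟨insert (G.node (p s) (l s)) s.2.1 ∪
      N.bas '' {v | co v (J (x s - x' s)) ≠ 0},
        (s.2.2.insert _).union ((countable_supp _).image _)⟩)
  let s : ℕ → G × {C : Set G // C.Countable} := fun k =>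
    Nat.rec (G.root, ⟨{G.root}, Set.countable_singleton _⟩) (fun _ a => nx a) k
  have hs : ∀ k, s (k + 1) = nx (s k) := fun k => rfl
  let t : ℕ → G := fun k => (s k).1
  let C : ℕ → Set G := fun k => (s k).2.1
  let y : ℕ → JT 𝕜 N := fun k => J (x (s k) - x' (s k))
  have ht : ∀ k, t (k + 1) = G.node (p (s k)) (l (s k)) := fun k => rfl
  have hanc : ∀ k, anc m (t (k + 1)) = insert (t (k + 1)) (anc m (t k)) := fun k => by
    rw [ht, anc, hp]
  have hmono : Monotone C := monotone_nat_of_le_succ fun k γ h => Or.inl (Or.inr h)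
  have htC : ∀ k, t k ∈ C k := by
    rintro (_ | k)
    · exact rfl
    · exact Or.inl (Or.inl rfl)
  have htn : ∀ k, t (k + 1) ∉ C k := fun k => hn (s k)
  have hsupp : ∀ k v, co v (y k) ≠ 0 → v.bas ∈ C (k + 1) := fun k v h => Or.inr ⟨v, h, rfl⟩
  have hsub : ∀ k, ∀ γ ∈ anc m (t k), ∃ j, γ = t j := by
    intro k
    induction k with
    | zero => intro γ h; exact ⟨0, Finset.mem_singleton.1 h⟩
    | succ k ih =>
      intro γ h
      rw [hanc, Finset.mem_insert] at h
      rcases h with h | h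
      · exact ⟨k + 1, h⟩
      · exact ih γ h
  have hancmono : Monotone fun k => anc m (t k) :=
    monotone_nat_of_le_succ fun k => by rw [hanc]; exact Finset.subset_insert _ _
  have hne : ∀ j k, j < k → t j ≠ t k := by
    intro j k h he
    obtain ⟨k, rfl⟩ := Nat.exists_eq_succ_of_ne_zero (Nat.ne_zero_of_lt h)
    exact htn k (he ▸ hmono (Nat.le_of_lt_succ h) (htC j))
  let b : Br N :=
    { s := Set.range fun k => N.tre m (t k)
      inf := Set.infinite_range_of_injective fun j k h => by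
        simp only [N.tre.injEq, true_and] at h
        rcases lt_trichotomy j k with h' | h' | h'
        · exact absurd h (hne j k h')
        · exact h'
        · exact absurd h.symm (hne k j h')
      lower := by
        rintro _ (⟨γ, i, n⟩ | ⟨m', γ⟩) h ⟨k, rfl⟩
        · exact False.elim h
        · obtain ⟨rfl, h⟩ := h
          obtain ⟨j, rfl⟩ := hsub k γ h
          exact ⟨j, rfl⟩
      chain := by
        rintro _ ⟨j, rfl⟩ _ ⟨k, rfl⟩
        rcases le_total j k with h | h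
        · exact Or.inl ⟨rfl, hancmono h (self_mem_anc _ _)⟩
        · exact Or.inr ⟨rfl, hancmono h (self_mem_anc _ _)⟩ }
  have hb : ∀ k, η < ‖bs b (y k)‖ := by
    intro k
    rw [bs_single b (y k) (w := N.tre m (t (k + 1))) ⟨k + 1, rfl⟩]
    · exact hl (s k)
    · rintro _ ⟨j, rfl⟩ hj
      rcases lt_trichotomy j (k + 1) with h | h | h
      · exact hv (s k) _ (hmono (Nat.le_of_lt_succ h) (htC j))
      · exact absurd (by rw [h]) hj
      · by_contra h0
        obtain ⟨j, rfl⟩ := Nat.exists_eq_succ_of_ne_zero (Nat.ne_zero_of_lt h)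
        exact htn j (hmono (Nat.le_of_lt_succ h) (hsupp k _ h0))
  obtain ⟨z, -, hz⟩ := exists_weak_limit hK (hyperfilter ℕ) (fun k => x (s k)) fun k => hx _
  obtain ⟨z', -, hz'⟩ := exists_weak_limit hK (hyperfilter ℕ) (fun k => x' (s k)) fun k => hx' _
  have hU : (hyperfilter ℕ : Filter ℕ) ≤ atTop := Nat.hyperfilter_le_atTop
  have hlim : ∀ f : StrongDual 𝕜 (JT 𝕜 N),
      Tendsto (fun k => f (y k)) (hyperfilter ℕ) (𝓝 (f (J (z - z')))) := fun f => by
    have := (hz (tr J.toContinuousLinearMap f)).sub (hz' (tr J.toContinuousLinearMap f))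
    simpa [y] using this
  have h0 : J (z - z') = 0 := JT.ext fun v => by
    rw [map_zero]
    refine tendsto_nhds_unique (hlim (co v)) (tendsto_const_nhds.congr' (hU ?_))
    by_cases h : ∃ k, v.bas ∈ C k
    · obtain ⟨k, hk⟩ := h
      filter_upwards [eventually_ge_atTop k] with j hj
      exact (hv (s j) v (hmono hj hk)).symm
    · refine Eventually.of_forall fun j => ?_
      by_contra h0
      exact h ⟨j + 1, hsupp j v (Ne.symm h0)⟩
  have h1 := (hlim (bs b)).norm
  rw [h0, map_zero, norm_zero] at h1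
  have := ge_of_tendsto' h1 fun k => (hb k).le
  linarith

theorem not_wcg (hJ : ∀ y, (∃ x, J x = y) ↔ InX y) : ¬ WCG 𝕜 E := by
  rintro ⟨K, hK, hd⟩
  choose t C hC hstop using fun m => exists_stop J hK m (eta_pos m)
  obtain ⟨A, hA, hCA, hcl⟩ := exists_closed J hK (Set.countable_iUnion hC)
  have h1 : ∃ l, G.node t l ∉ A := by
    by_contra h
    push Not at h
    have : (Set.univ : Set (Set ℕ)).Countable :=
      (hA.preimage_of_injOn (f := fun l => G.node t l) fun a _ b _ h => by simpa using h).mono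
        fun l _ => h l
    obtain ⟨f, hf⟩ := this.exists_eq_range Set.univ_nonempty
    exact Function.cantor_surjective f (Set.range_eq_univ.1 hf.symm)
  obtain ⟨l, hl⟩ := h1
  have h2 : ∃ x ∈ K, co (N.fib (G.node t l) 0 0) (J x) ≠ 0 := by
    by_contra h
    push Not at h
    obtain ⟨x, hx⟩ := (hJ _).2 (inX_EE (𝕜 := 𝕜) (G.node t l) 0 0)
    have a1 : Submodule.span 𝕜 K ≤
        (tr J.toContinuousLinearMap (co (N.fib (G.node t l) 0 0))).ker :=
      Submodule.span_le.2 fun x hx => h x hx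
    have a2 := Submodule.topologicalClosure_minimal _ a1 (ContinuousLinearMap.isClosed_ker _)
    rw [hd] at a2
    have a3 : co (N.fib (G.node t l) 0 0) (J x) = 0 := a2 Submodule.mem_top
    rw [hx, co_fib_EE] at a3
    exact one_ne_zero a3
  obtain ⟨x, hx, hx0⟩ := h2
  obtain ⟨x', hx', a1, a2⟩ := hcl x hx
  have h3 := small_zero ((hJ (J (x - x'))).1 ⟨_, rfl⟩) (G.node t l) (fun m =>
    hstop m t l rfl (fun h => hl (hCA (Set.mem_iUnion.2 ⟨m, h⟩))) x hx x' hx' fun v hv => by
      rw [map_sub, map_sub, a1 v (hCA (Set.mem_iUnion.2 ⟨m, hv⟩)), sub_self]) 0 0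
  rw [map_sub, map_sub, a2 (N.fib (G.node t l) 0 0) hl, sub_zero] at h3
  exact hx0 h3

end Pool.Agent.Lib.MP_064b94_an
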