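import Pool.Agent.Lib.MP_064b94_an.Bidual
import Pool.Agent.Lib.MP_064b94_an.NotWCG

namespace Pool.Agent.Lib.MP_064b94_an

variable {𝕜 : Type} [RCLike 𝕜]

def subX (𝕜 : Type) [RCLike 𝕜] : Submodule 𝕜 (JT 𝕜 N) where
  carrier := {y | InX y}
  add_mem' := fun {a b} ha hb =>
    ⟨fun γ i n => by rw [map_add, map_add, ha.1, hb.1], fun p => by
      rw [map_add, ha.2, hb.2, add_zero]⟩
  zero_mem' := ⟨fun γ i n => by simp, fun p => by simp⟩
  smul_mem' := fun c a ha =>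
    ⟨fun γ i n => by rw [map_smul, map_smul, ha.1], fun p => by rw [map_smul, ha.2, smul_zero]⟩

lemma isClosed_subX : IsClosed (subX 𝕜 : Set (JT 𝕜 N)) := by
  have : (subX 𝕜 : Set (JT 𝕜 N)) =
      (⋂ γ, ⋂ i, ⋂ n, {y | co (N.tre (.inr (i, n)) γ) y = co (N.fib γ i n) y}) ∩
        ⋂ p, {y | Lam p y = 0} := by
    ext y
    simp [subX, InX, InY]
  rw [this]
  refine IsClosed.inter (isClosed_iInter fun γ => isClosed_iInter fun i => isClosed_iInter fun n =>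
    isClosed_eq (by fun_prop) (by fun_prop)) (isClosed_iInter fun p => isClosed_eq (by fun_prop)
      continuous_const)

/-- the counterexample -/
def XX (𝕜 : Type) [RCLike 𝕜] : Type := ↥(subX 𝕜)

noncomputable instance : NormedAddCommGroup (XX 𝕜) :=
  inferInstanceAs (NormedAddCommGroup ↥(subX 𝕜))

noncomputable instance : NormedSpace 𝕜 (XX 𝕜) := inferInstanceAs (NormedSpace 𝕜 ↥(subX 𝕜))

instance : CompleteSpace (XX 𝕜) := isClosed_subX.completeSpace_coe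

noncomputable def JX (𝕜 : Type) [RCLike 𝕜] : XX 𝕜 →ₗᵢ[𝕜] JT 𝕜 N := (subX 𝕜).subtypeₗᵢ

lemma range_JX (y : JT 𝕜 N) : (∃ x, JX 𝕜 x = y) ↔ InX y :=
  ⟨fun ⟨x, hx⟩ => hx ▸ x.2, fun h => ⟨⟨y, h⟩, rfl⟩⟩

theorem main (𝕜 : Type) [RCLike 𝕜] :
    ∃ (X : Type) (_ : NormedAddCommGroup X) (_ : NormedSpace 𝕜 X),
      CompleteSpace X ∧ WCG 𝕜 (StrongDual 𝕜 (StrongDual 𝕜 X)) ∧ ¬ WCG 𝕜 X :=
  ⟨XX 𝕜, inferInstance, inferInstance, inferInstance, wcg_bidual (JX 𝕜) range_JX,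
    not_wcg (JX 𝕜) range_JX⟩

end Pool.Agent.Lib.MP_064b94_an
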