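import Pool.Agent.Lib.MP_064b94_an.Dual

open Filter Topology Classical

namespace Pool.Agent.Lib.MP_064b94_an

abbrev M : Type := ℕ ⊕ (ℕ × ℕ)

/-- the index set: every node has a prescribed parent in each of countably many trees -/
inductive G : Type
  | root : G
  | node (p : M → G) (l : Set ℕ) : G

noncomputable def anc (m : M) : G → Finset G
  | .root => {.root}
  | .node p l => insert (.node p l) (anc m (p m))

def hg (m : M) : G → ℕ
  | .root => 0
  | .node p _ => hg m (p m) + 1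

lemma self_mem_anc (m : M) (γ : G) : γ ∈ anc m γ := by
  cases γ <;> simp [anc]

lemma anc_trans (m : M) {a b : G} (h : a ∈ anc m b) : anc m a ⊆ anc m b := by
  induction b with
  | root => simp only [anc, Finset.mem_singleton] at h; subst h; exact Finset.Subset.refl _
  | node p l ih =>
    simp only [anc, Finset.mem_insert] at h
    rcases h with rfl | h
    · exact Finset.Subset.refl _
    · exact (ih m h).trans (Finset.subset_insert _ _)

lemma hg_lt (m : M) {a b : G} (h : a ∈ anc m b) : a = b ∨ hg m a < hg m b := by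
  induction b with
  | root => left; simpa [anc] using h
  | node p l ih =>
    simp only [anc, Finset.mem_insert] at h
    rcases h with rfl | h
    · left; rfl
    · right
      rcases ih m h with rfl | h'
      · simp [hg]
      · simp only [hg]; omega

lemma anc_chain (m : M) {a b c : G} (ha : a ∈ anc m c) (hb : b ∈ anc m c) :
    a ∈ anc m b ∨ b ∈ anc m a := by
  induction c with
  | root =>
    simp only [anc, Finset.mem_singleton] at ha hb
    subst ha hb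
    left; exact self_mem_anc _ _
  | node p l ih =>
    have ha' := ha
    have hb' := hb
    simp only [anc, Finset.mem_insert] at ha hb
    rcases ha with rfl | ha
    · right; exact hb'
    · rcases hb with rfl | hb
      · left; exact ha'
      · exact ih m ha hb

/-- nodes of the forest -/
inductive N : Type
  | fib (γ : G) (i n : ℕ) : N
  | tre (m : M) (γ : G) : N

def N.le : N → N → Prop
  | .fib γ i n, .fib γ' i' n' => γ = γ' ∧ i = i' ∧ n ≤ n'
  | .tre m γ, .tre m' γ' => m = m' ∧ γ ∈ anc m' γ'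
  | _, _ => False

instance : Forest N where
  le := N.le
  le_refl := by
    rintro (⟨γ, i, n⟩ | ⟨m, γ⟩)
    · exact ⟨rfl, rfl, le_rfl⟩
    · exact ⟨rfl, self_mem_anc _ _⟩
  le_trans := by
    rintro (⟨γ, i, n⟩ | ⟨m, γ⟩) (⟨γ', i', n'⟩ | ⟨m', γ'⟩) (⟨γ'', i'', n''⟩ | ⟨m'', γ''⟩) h1 h2 <;>
      simp only [N.le] at h1 h2 ⊢
    · exact ⟨h1.1.trans h2.1, h1.2.1.trans h2.2.1, h1.2.2.trans h2.2.2⟩
    · obtain ⟨rfl, h1⟩ := h1
      obtain ⟨rfl, h2⟩ := h2
      exact ⟨rfl, anc_trans _ h2 h1⟩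
  le_antisymm := by
    rintro (⟨γ, i, n⟩ | ⟨m, γ⟩) (⟨γ', i', n'⟩ | ⟨m', γ'⟩) h1 h2 <;>
      simp only [N.le] at h1 h2
    · rw [h1.1, h1.2.1, le_antisymm h1.2.2 h2.2.2]
    · obtain ⟨rfl, h1⟩ := h1
      rcases hg_lt _ h1 with h | h
      · rw [h]
      · rcases hg_lt _ h2.2 with h' | h'
        · rw [h']
        · omega
  fin_Iic := by
    rintro (⟨γ, i, n⟩ | ⟨m, γ⟩)
    · refine ((Set.finite_Iic n).image (N.fib γ i)).subset ?_
      rintro (⟨γ', i', n'⟩ | ⟨m', γ'⟩) h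
      · obtain ⟨rfl, rfl, h⟩ := h
        exact ⟨n', h, rfl⟩
      · exact False.elim h
    · refine ((anc m γ).finite_toSet.image (N.tre m)).subset ?_
      rintro (⟨γ', i', n'⟩ | ⟨m', γ'⟩) h
      · exact False.elim h
      · obtain ⟨rfl, h⟩ := h
        exact ⟨γ', h, rfl⟩
  chain := by
    rintro (⟨γ, i, n⟩ | ⟨m, γ⟩) (⟨γ', i', n'⟩ | ⟨m', γ'⟩) (⟨γ'', i'', n''⟩ | ⟨m'', γ''⟩) h1 h2 <;>
      simp only [N.le] at h1 h2 ⊢
    · obtain ⟨rfl, rfl, -⟩ := h1
      obtain ⟨rfl, rfl, -⟩ := h2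
      simpa using le_total n n'
    · obtain ⟨rfl, h1⟩ := h1
      obtain ⟨rfl, h2⟩ := h2
      simpa using anc_chain _ h1 h2

@[simp] lemma fib_le_fib {γ γ' : G} {i n i' n' : ℕ} :
    N.fib γ i n ≤ N.fib γ' i' n' ↔ γ = γ' ∧ i = i' ∧ n ≤ n' := Iff.rfl

@[simp] lemma tre_le_tre {γ γ' : G} {m m' : M} :
    N.tre m γ ≤ N.tre m' γ' ↔ m = m' ∧ γ ∈ anc m' γ' := Iff.rfl

@[simp] lemma not_fib_le_tre {γ γ' : G} {i n : ℕ} {m : M} : ¬ N.fib γ i n ≤ N.tre m γ' :=
  fun h => h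

@[simp] lemma not_tre_le_fib {γ γ' : G} {i n : ℕ} {m : M} : ¬ N.tre m γ' ≤ N.fib γ i n :=
  fun h => h

/-- the rays -/
def ray (p : G × ℕ) : Br N where
  s := Set.range (N.fib p.1 p.2)
  inf := Set.infinite_range_of_injective fun a b h => by simpa using h
  lower := by
    rintro _ (⟨γ, i, n⟩ | ⟨m, γ⟩) h ⟨k, rfl⟩
    · obtain ⟨rfl, rfl, -⟩ := h
      exact ⟨n, rfl⟩
    · exact False.elim h
  chain := by
    rintro _ ⟨k, rfl⟩ _ ⟨l, rfl⟩
    simpa using le_total k l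

@[simp] lemma fib_mem_ray {p : G × ℕ} {γ : G} {i n : ℕ} :
    N.fib γ i n ∈ (ray p).s ↔ p = (γ, i) := by
  obtain ⟨a, b⟩ := p
  simp [ray]

@[simp] lemma tre_notMem_ray {p : G × ℕ} {γ : G} {m : M} : N.tre m γ ∉ (ray p).s := by
  simp [ray]

lemma ray_disjoint {p p' : G × ℕ} (h : p ≠ p') : Disjoint (ray p).s (ray p').s := by
  rw [Set.disjoint_left]
  rintro _ ⟨n, rfl⟩ h'
  exact h (fib_mem_ray.1 h').symm

lemma ray_injective : Function.Injective ray := fun p p' h => by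
  have : N.fib p.1 p.2 0 ∈ (ray p').s := h ▸ fib_mem_ray.2 rfl
  exact (fib_mem_ray.1 this).symm

lemma branch_cases (b : Br N) : b ∈ Set.range ray ∨ ∃ m, ∀ v ∈ b.s, ∃ γ, v = N.tre m γ := by
  obtain ⟨v0, hv0⟩ := b.inf.nonempty
  rcases v0 with ⟨γ, i, n⟩ | ⟨m, γ⟩
  · left
    refine ⟨(γ, i), ?_⟩
    by_contra h
    refine b.inf ((Br.inter_finite h).subset fun v hv => ⟨?_, hv⟩)
    rcases v with ⟨γ', i', n'⟩ | ⟨m', γ'⟩
    · rcases b.chain _ hv _ hv0 with h | h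
      · simp [h.1, h.2.1]
      · simp [h.1, h.2.1]
    · simpa using b.chain _ hv _ hv0
  · right
    refine ⟨m, fun v hv => ?_⟩
    rcases v with ⟨γ', i', n'⟩ | ⟨m', γ'⟩
    · simpa using b.chain _ hv _ hv0
    · rcases b.chain _ hv _ hv0 with h | h
      · exact ⟨γ', by rw [h.1]⟩
      · exact ⟨γ', by rw [h.1]⟩

def tau (j : ℕ) : ℕ × ℕ := Nat.unpair (Nat.unpair j).1

noncomputable def al (j : ℕ) : ℝ := 1 / 2 / 2 ^ j

lemma al_pos (j : ℕ) : 0 < al j := by unfold al; positivity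

lemma al_anti {j k : ℕ} (h : j ≤ k) : al k ≤ al j := by
  unfold al
  gcongr
  norm_num

lemma al_le_one (j : ℕ) : al j ≤ 1 := (al_anti (Nat.zero_le j)).trans (by norm_num [al])

lemma sum_al_le (I : Finset ℕ) : ∑ j ∈ I, al j ≤ 1 :=
  sum_le_hasSum I (fun j _ => (al_pos j).le) (hasSum_geometric_two' 1)

lemma al_tendsto : Tendsto al atTop (𝓝 0) :=
  (hasSum_geometric_two' 1).summable.tendsto_atTop_zero

variable {𝕜 : Type} [RCLike 𝕜]

/-- the functionals tying the rays to the trees -/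
noncomputable def Lam (p : G × ℕ) : StrongDual 𝕜 (JT 𝕜 N) :=
  co (N.tre (.inl p.2) p.1) - bs (ray p) + (al p.2 : 𝕜) • co (N.fib p.1 (tau p.2).1 (tau p.2).2)

lemma Lam_apply (p : G × ℕ) (y : JT 𝕜 N) : Lam p y =
    co (N.tre (.inl p.2) p.1) y - bs (ray p) y +
      (al p.2 : 𝕜) * co (N.fib p.1 (tau p.2).1 (tau p.2).2) y := rfl

def InY (y : JT 𝕜 N) : Prop := ∀ γ i n, co (N.tre (.inr (i, n)) γ) y = co (N.fib γ i n) y

def InX (y : JT 𝕜 N) : Prop := InY y ∧ ∀ p, Lam p y = 0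

section General
variable {V : Type} [Forest V] {ι : Type}

lemma sum_co_comp_le (φ : ι → V) (hφ : Function.Injective φ) (y : JT 𝕜 V) (I : Finset ι) :
    ∑ k ∈ I, ‖co (φ k) y‖ ^ 2 ≤ ‖y‖ ^ 2 := by
  have := sum_co_le y (I.map ⟨φ, hφ⟩)
  simpa using this

lemma co_of_hasSum {φ : ι → V} (hφ : Function.Injective φ) {a : ι → 𝕜} {x : JT 𝕜 V}
    (h : HasSum (fun k => a k • e 𝕜 (φ k)) x) (k : ι) : co (φ k) x = a k := by
  have h1 := (co (φ k) : StrongDual 𝕜 (JT 𝕜 V)).hasSum h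
  have h2 := hasSum_single (f := fun l => co (φ k) (a l • e 𝕜 (φ l))) k fun l hl => by
    have : φ k ≠ φ l := fun h => hl (hφ h).symm
    simp [co_e, this]
  rw [h1.unique h2]
  simp [co_e]

lemma co_of_hasSum' {φ : ι → V} {a : ι → 𝕜} {x : JT 𝕜 V}
    (h : HasSum (fun k => a k • e 𝕜 (φ k)) x) {v : V} (hv : ∀ k, v ≠ φ k) : co v x = 0 := by
  have h1 := (co v : StrongDual 𝕜 (JT 𝕜 V)).hasSum h
  simp only [map_smul, co_e, hv, if_false, smul_zero] at h1
  exact h1.unique hasSum_zero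

lemma Br.tendsto_of_injOn (b : Br V) {φ : V → ι} (h : Set.InjOn φ b.s) :
    Tendsto φ b.U cofinite := by
  intro s hs
  have h1 : (b.s ∩ φ ⁻¹' sᶜ).Finite :=
    Set.Finite.of_finite_image (f := φ) ((mem_cofinite.1 hs).subset (by
      rintro _ ⟨v, hv, rfl⟩; exact hv.2)) (h.mono Set.inter_subset_left)
  rw [mem_map]
  filter_upwards [b.ev_mem, b.ev_notMem h1] with t h1 h2
  by_contra hc
  exact h2 ⟨h1, hc⟩

end General

lemma exists_r (𝕜 : Type) [RCLike 𝕜] (γ : G) (i n : ℕ) : ∃ x : JT 𝕜 N,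
    HasSum (fun l => (if tau l = (i, n) then (al l : 𝕜) else 0) • e 𝕜 (N.tre (.inl l) γ)) x ∧
      ‖x‖ ≤ √(al n) := by
  have hup := upL2_e (𝕜 := 𝕜) (fun l => N.tre (.inl l) γ) fun l l' h => by simp [h]
  have hb : ∀ I : Finset ℕ,
      ∑ l ∈ I, ‖(if tau l = (i, n) then (al l : 𝕜) else 0)‖ ^ 2 ≤ (√(al n)) ^ 2 := by
    intro I
    rw [Real.sq_sqrt (al_pos n).le]
    calc _ ≤ ∑ l ∈ I, al n * al l := by
          refine Finset.sum_le_sum fun l _ => ?_
          split_ifs with h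
          · have h1 : n ≤ l := by
              have a1 := Nat.unpair_right_le (Nat.unpair l).1
              have a2 := Nat.unpair_left_le l
              have a3 : (tau l).2 = n := by rw [h]
              unfold tau at a3
              omega
            rw [RCLike.norm_ofReal, abs_of_pos (al_pos l), sq]
            exact mul_le_mul_of_nonneg_right (al_anti h1) (al_pos l).le
          · simpa using (mul_pos (al_pos n) (al_pos l)).le
      _ = al n * ∑ l ∈ I, al l := by rw [Finset.mul_sum]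
      _ ≤ al n := mul_le_of_le_one_right (al_pos n).le (sum_al_le I)
  obtain ⟨x, hx⟩ := hup.summable (summable_sq_of_le hb)
  exact ⟨x, hx, hup.norm_le_of_hasSum (Real.sqrt_nonneg _) hx hb⟩

noncomputable def rr (𝕜 : Type) [RCLike 𝕜] (γ : G) (i n : ℕ) : JT 𝕜 N :=
  (exists_r 𝕜 γ i n).choose

lemma rr_hasSum (γ : G) (i n : ℕ) :
    HasSum (fun l => (if tau l = (i, n) then (al l : 𝕜) else 0) • e 𝕜 (N.tre (.inl l) γ))
      (rr 𝕜 γ i n) := (exists_r 𝕜 γ i n).choose_spec.1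

lemma norm_rr_le (γ : G) (i n : ℕ) : ‖rr 𝕜 γ i n‖ ≤ √(al n) := (exists_r 𝕜 γ i n).choose_spec.2

lemma co_fib_rr (γ γ' : G) (i n i' n' : ℕ) : co (N.fib γ' i' n') (rr 𝕜 γ i n) = 0 :=
  co_of_hasSum' (rr_hasSum γ i n) (by simp)

lemma co_inr_rr (γ γ' : G) (i n : ℕ) (k : ℕ × ℕ) : co (N.tre (.inr k) γ') (rr 𝕜 γ i n) = 0 :=
  co_of_hasSum' (rr_hasSum γ i n) (by simp)

lemma co_inl_rr (γ γ' : G) (i n l : ℕ) : co (N.tre (.inl l) γ') (rr 𝕜 γ i n) =
    if γ' = γ ∧ tau l = (i, n) then (al l : 𝕜) else 0 := by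
  by_cases h : γ' = γ
  · subst h
    rw [co_of_hasSum (φ := fun l => N.tre (.inl l) γ') (fun a b h => by simpa using h)
      (rr_hasSum γ' i n) l]
    simp
  · rw [co_of_hasSum' (rr_hasSum γ i n) (by simp [h])]
    simp [h]

noncomputable def pr (𝕜 : Type) [RCLike 𝕜] (γ : G) (i n : ℕ) : JT 𝕜 N :=
  e 𝕜 (N.fib γ i n) + e 𝕜 (N.tre (.inr (i, n)) γ)

noncomputable def EE (𝕜 : Type) [RCLike 𝕜] (γ : G) (i n : ℕ) : JT 𝕜 N :=
  pr 𝕜 γ i n + e 𝕜 (N.tre (.inl i) γ) - rr 𝕜 γ i n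

lemma co_fib_EE (γ : G) (i n : ℕ) : co (N.fib γ i n) (EE 𝕜 γ i n) = 1 := by
  simp [EE, pr, co_e, co_fib_rr]

lemma inX_EE (γ : G) (i n : ℕ) : InX (EE 𝕜 γ i n) := by
  constructor
  · intro γ' i' n'
    simp only [EE, pr, map_add, map_sub, co_e, co_fib_rr, co_inr_rr]
    simp [and_comm]
  · rintro ⟨γ', j⟩
    have h0 : bs (ray (γ', j)) (rr 𝕜 γ i n) = 0 := bs_zero _ _ (by
      rintro _ ⟨k, rfl⟩; exact co_fib_rr ..)
    have h1 : bs (ray (γ', j)) (e 𝕜 (N.fib γ i n)) = if γ' = γ ∧ j = i then 1 else 0 := by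
      split_ifs with h
      · exact bs_e_mem _ (by simp [h.1, h.2])
      · exact bs_e_notMem _ (by simpa using h)
    simp only [Lam_apply, EE, pr, map_add, map_sub, co_e, co_fib_rr, co_inl_rr, h0, h1,
      bs_e_notMem _ tre_notMem_ray]
    have h2 : (N.fib γ' (tau j).1 (tau j).2 = N.fib γ i n) ↔ (γ' = γ ∧ tau j = (i, n)) := by
      simp [Prod.ext_iff]
    have h3 : (N.tre (Sum.inl j) γ' = N.tre (Sum.inl i) γ) ↔ (γ' = γ ∧ j = i) := by
      simp [and_comm]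
    simp only [h2, h3]
    simp only [reduceCtorEq, if_false, N.tre.injEq, false_and]
    split_ifs <;> ring

end Pool.Agent.Lib.MP_064b94_an
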